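import Pool.Agent.Lib.MP_a8cdcd_al.Closure

/-!
# Modulo the ideal generated by the associator everything is associative
-/

set_option autoImplicit false
set_option linter.unusedSimpArgs false
set_option linter.unusedVariables false
set_option linter.unusedSectionVars false

namespace Pool.Agent.AltRing

variable {A : Type*} [NonUnitalNonAssocRing A]

/-- `A` is generated by `a b c` as a ring -/
def Gen (a b c : A) : Prop :=
  ∀ p : A → Prop, p a → p b → p c → p 0 → (∀ x y, p x → p y → p (x + y)) → (∀ x, p x → p (-x)) →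
    (∀ x y, p x → p y → p (x * y)) → ∀ x, p x

/-- stable under the multiplications by `a b c` -/
structure St (a b c : A) (T : AddSubgroup A) : Prop where
  la : ∀ y ∈ T, a * y ∈ T
  lb : ∀ y ∈ T, b * y ∈ T
  lc : ∀ y ∈ T, c * y ∈ T
  ra : ∀ y ∈ T, y * a ∈ T
  rb : ∀ y ∈ T, y * b ∈ T
  rc : ∀ y ∈ T, y * c ∈ T

variable [IsAlt A]

theorem St.ideal {a b c : A} (hG : Gen a b c) {T : AddSubgroup A} (hT : St a b c T) (w : A) :
    ∀ y ∈ T, w * y ∈ T ∧ y * w ∈ T := by
  apply hG (fun w => ∀ y ∈ T, w * y ∈ T ∧ y * w ∈ T)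
  · exact fun y hy => ⟨hT.la y hy, hT.ra y hy⟩
  · exact fun y hy => ⟨hT.lb y hy, hT.rb y hy⟩
  · exact fun y hy => ⟨hT.lc y hy, hT.rc y hy⟩
  · intro y _
    rw [zero_mul, mul_zero]
    exact ⟨zero_mem _, zero_mem _⟩
  · intro v w hv hw y hy
    rw [add_mul, mul_add]
    exact ⟨add_mem (hv y hy).1 (hw y hy).1, add_mem (hv y hy).2 (hw y hy).2⟩
  · intro v hv y hy
    rw [neg_mul, mul_neg]
    exact ⟨neg_mem (hv y hy).1, neg_mem (hv y hy).2⟩
  · intro v w hv hw y hy
    have h1 : as w y v ∈ T := by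
      rw [as_def]
      exact sub_mem (hv _ (hw y hy).1).2 (hw _ (hv y hy).2).1
    have h2 : v * w * y = v * (w * y) + as v w y := by rw [as_def]; abel
    have h3 : y * (v * w) = y * v * w - as y v w := by rw [as_def]; abel
    refine ⟨?_, ?_⟩
    · rw [h2, as_cyc v w y]
      exact add_mem (hv _ (hw y hy).1).1 h1
    · rw [h3, as_cyc y v w, as_cyc v w y]
      exact sub_mem (hw _ (hv y hy).2).2 h1

theorem St.top {a b c : A} (hG : Gen a b c) {T : AddSubgroup A} (hT : St a b c T)
    (h1 : a ∈ T) (h2 : b ∈ T) (h3 : c ∈ T) (x : A) : x ∈ T := by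
  apply hG (fun x => x ∈ T) h1 h2 h3 (zero_mem _) (fun _ _ => add_mem) (fun _ => neg_mem)
  intro x y hx hy
  exact (hT.ideal hG x y hy).1

section

variable {a b c : A} {D : AddSubgroup A}

/-- membership of associators with an entry in an ideal -/
theorem as_mem3 (hD : ∀ w, ∀ y ∈ D, w * y ∈ D ∧ y * w ∈ D) (x y : A) {z : A} (hz : z ∈ D) :
    as x y z ∈ D := by
  rw [as_def]
  exact sub_mem (hD _ _ hz).1 (hD _ _ (hD _ _ hz).1).1

/-- The set `E`. -/
def EE (a b c : A) (D : AddSubgroup A) : AddSubgroup A where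
  carrier := {y | as a b y ∈ D ∧ as b c y ∈ D ∧ as c a y ∈ D ∧ f a b c y ∈ D}
  add_mem' := by
    intro x y hx hy
    refine ⟨?_, ?_, ?_, ?_⟩
    · rw [as_add3]; exact add_mem hx.1 hy.1
    · rw [as_add3]; exact add_mem hx.2.1 hy.2.1
    · rw [as_add3]; exact add_mem hx.2.2.1 hy.2.2.1
    · have : f a b c (x + y) = f a b c x + f a b c y := by
        simp only [f, as_add3, mul_add, add_mul]; abel
      rw [this]; exact add_mem hx.2.2.2 hy.2.2.2
  zero_mem' := by
    refine ⟨?_, ?_, ?_, ?_⟩ <;> simp [f, as_zero3]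
  neg_mem' := by
    intro x hx
    refine ⟨?_, ?_, ?_, ?_⟩
    · rw [as_neg3]; exact neg_mem hx.1
    · rw [as_neg3]; exact neg_mem hx.2.1
    · rw [as_neg3]; exact neg_mem hx.2.2.1
    · have : f a b c (-x) = - f a b c x := by
        simp only [f, as_neg3, mul_neg, neg_mul]; abel
      rw [this]; exact neg_mem hx.2.2.2

theorem f_rot (a b c x : A) : f b c a x = f a b c x := by
  rw [f_swap23, f_swap12, neg_neg]

theorem EE_rot (a b c : A) (D : AddSubgroup A) : EE b c a D = EE a b c D := by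
  ext y
  show (as b c y ∈ D ∧ as c a y ∈ D ∧ as a b y ∈ D ∧ f b c a y ∈ D) ↔
    (as a b y ∈ D ∧ as b c y ∈ D ∧ as c a y ∈ D ∧ f a b c y ∈ D)
  rw [f_rot]
  tauto

theorem EE_la (hD : ∀ w, ∀ y ∈ D, w * y ∈ D ∧ y * w ∈ D) (hu : as a b c ∈ D) {y : A}
    (hy : y ∈ EE a b c D) : a * y ∈ EE a b c D := by
  obtain ⟨h1, h2, h3, h4⟩ := hy
  refine ⟨?_, ?_, ?_, ?_⟩
  · rw [as_l1]; exact (hD _ _ h1).2
  · rw [as_mul3l, f_rot, ← as_cyc a b c]
    exact add_mem (add_mem h4 (hD _ _ hu).1) (hD _ _ h2).2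
  · rw [as_l2]; exact (hD _ _ h3).2
  · have e1 := as_mul3r a b c (a * y)
    have e2 : a * y * c = a * (y * c) + as c a y := by
      rw [as_cyc c a y, as_def]; abel
    have e3 := as_mul3r a b c y
    rw [e2, as_add3, as_l1, e3] at e1
    have e4 : f a b c (a * y) = c * as a b (a * y) + as a b c * (a * y)
        - (- f a b c y + c * as a b y + as a b c * y) * a - as a b (as c a y) := by
      linear_combination (norm := abel) e1
    rw [e4, as_l1]
    exact sub_mem (sub_mem (add_mem (hD _ _ (hD _ _ h1).2).1 (hD _ _ hu).2)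
      (hD _ _ (add_mem (add_mem (neg_mem h4) (hD _ _ h1).1) (hD _ _ hu).2)).2)
      (as_mem3 hD _ _ h3)

theorem EE_lb (hD : ∀ w, ∀ y ∈ D, w * y ∈ D ∧ y * w ∈ D) (hu : as a b c ∈ D) {y : A}
    (hy : y ∈ EE a b c D) : b * y ∈ EE a b c D := by
  obtain ⟨h1, h2, h3, h4⟩ := hy
  refine ⟨?_, ?_, ?_, ?_⟩
  · rw [as_l2]; exact (hD _ _ h1).2
  · rw [as_l1]; exact (hD _ _ h2).2
  · rw [as_mul3l, f_rot, f_rot, as_cyc c a b]
    exact add_mem (add_mem h4 (hD _ _ hu).1) (hD _ _ h3).2
  · have e1 := as_mul3r a b c (b * y)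
    have e2 : b * y * c = b * (y * c) - as b c y := by
      rw [as_swap23 b c y, as_def]; abel
    have e3 := as_mul3r a b c y
    rw [e2, as_sub3, as_l2, e3] at e1
    have e4 : f a b c (b * y) = c * as a b (b * y) + as a b c * (b * y)
        - (- f a b c y + c * as a b y + as a b c * y) * b + as a b (as b c y) := by
      linear_combination (norm := abel) e1
    rw [e4, as_l2]
    exact add_mem (sub_mem (add_mem (hD _ _ (hD _ _ h1).2).1 (hD _ _ hu).2)
      (hD _ _ (add_mem (add_mem (neg_mem h4) (hD _ _ h1).1) (hD _ _ hu).2)).2)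
      (as_mem3 hD _ _ h2)

theorem EE_ra (hD : ∀ w, ∀ y ∈ D, w * y ∈ D ∧ y * w ∈ D) (hu : as a b c ∈ D) {y : A}
    (hy : y ∈ EE a b c D) : y * a ∈ EE a b c D := by
  obtain ⟨h1, h2, h3, h4⟩ := hy
  refine ⟨?_, ?_, ?_, ?_⟩
  · rw [as_r1]; exact (hD _ _ h1).1
  · rw [as_mul3r, f_rot, ← as_cyc a b c]
    exact add_mem (add_mem (neg_mem h4) (hD _ _ h2).1) (hD _ _ hu).2
  · rw [as_r2]; exact (hD _ _ h3).1
  · have e1 := as_mul3l a b c (y * a)
    have e2 : c * (y * a) = c * y * a - as c y a := by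
      rw [as_def]; abel
    have e3 := as_mul3l a b c y
    rw [e2, as_sub3, as_r1, e3] at e1
    have e4 : f a b c (y * a) = a * (f a b c y + y * as a b c + as a b y * c)
        - as a b (as c y a) - y * a * as a b c - as a b (y * a) * c := by
      linear_combination (norm := abel) - e1
    have e5 : as c y a = - as c a y := as_swap23 _ _ _
    rw [e4, as_r1, e5]
    exact sub_mem (sub_mem (sub_mem
      (hD _ _ (add_mem (add_mem h4 (hD _ _ hu).1) (hD _ _ h1).2)).1
      (as_mem3 hD _ _ (neg_mem h3))) (hD _ _ hu).1) (hD _ _ (hD _ _ h1).1).2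

theorem EE_rb (hD : ∀ w, ∀ y ∈ D, w * y ∈ D ∧ y * w ∈ D) (hu : as a b c ∈ D) {y : A}
    (hy : y ∈ EE a b c D) : y * b ∈ EE a b c D := by
  obtain ⟨h1, h2, h3, h4⟩ := hy
  refine ⟨?_, ?_, ?_, ?_⟩
  · rw [as_r2]; exact (hD _ _ h1).1
  · rw [as_r1]; exact (hD _ _ h2).1
  · rw [as_mul3r, f_rot, f_rot, as_cyc c a b]
    exact add_mem (add_mem (neg_mem h4) (hD _ _ h3).1) (hD _ _ hu).2
  · have e1 := as_mul3l a b c (y * b)
    have e2 : c * (y * b) = c * y * b - as c y b := by
      rw [as_def]; abel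
    have e3 := as_mul3l a b c y
    rw [e2, as_sub3, as_r2, e3] at e1
    have e4 : f a b c (y * b) = b * (f a b c y + y * as a b c + as a b y * c)
        - as a b (as c y b) - y * b * as a b c - as a b (y * b) * c := by
      linear_combination (norm := abel) - e1
    have e5 : as c y b = as b c y := (as_cyc _ _ _).symm
    rw [e4, as_r2, e5]
    exact sub_mem (sub_mem (sub_mem
      (hD _ _ (add_mem (add_mem h4 (hD _ _ hu).1) (hD _ _ h1).2)).1
      (as_mem3 hD _ _ h2)) (hD _ _ hu).1) (hD _ _ (hD _ _ h1).1).2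

theorem EE_St (hD : ∀ w, ∀ y ∈ D, w * y ∈ D ∧ y * w ∈ D) (hu : as a b c ∈ D) :
    St a b c (EE a b c D) where
  la _ hy := EE_la hD hu hy
  lb _ hy := EE_lb hD hu hy
  lc _ hy := by
    rw [← EE_rot] at hy ⊢
    exact EE_lb hD (by rwa [← as_cyc]) hy
  ra _ hy := EE_ra hD hu hy
  rb _ hy := EE_rb hD hu hy
  rc _ hy := by
    rw [← EE_rot] at hy ⊢
    exact EE_rb hD (by rwa [← as_cyc]) hy

theorem EE_all (hG : Gen a b c) (hD : ∀ w, ∀ y ∈ D, w * y ∈ D ∧ y * w ∈ D) (hu : as a b c ∈ D)
    (y : A) : y ∈ EE a b c D := by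
  have hu2 : as b c a ∈ D := by rwa [← as_cyc]
  have hu3 : as c a b ∈ D := by rwa [as_cyc]
  apply (EE_St hD hu).top hG
  · refine ⟨?_, ?_, ?_, ?_⟩
    · rw [as_self13]; exact zero_mem _
    · exact hu2
    · rw [as_self23]; exact zero_mem _
    · rw [f_self14]; exact zero_mem _
  · refine ⟨?_, ?_, ?_, ?_⟩
    · rw [as_self23]; exact zero_mem _
    · rw [as_self13]; exact zero_mem _
    · exact hu3
    · rw [f_self24]; exact zero_mem _
  · refine ⟨?_, ?_, ?_, ?_⟩
    · exact hu
    · rw [as_self23]; exact zero_mem _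
    · rw [as_self13]; exact zero_mem _
    · rw [f_self34]; exact zero_mem _

/-- associators with two generators -/
theorem two_gen (hG : Gen a b c) (hD : ∀ w, ∀ y ∈ D, w * y ∈ D ∧ y * w ∈ D)
    (hu : as a b c ∈ D) (g h z : A) (hg : g = a ∨ g = b ∨ g = c) (hh : h = a ∨ h = b ∨ h = c) :
    as g h z ∈ D := by
  obtain ⟨h1, h2, h3, _⟩ := EE_all hG hD hu z
  rcases hg with rfl | rfl | rfl <;> rcases hh with rfl | rfl | rfl <;>
    first
    | (rw [as_self12]; exact zero_mem _)
    | assumption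
    | (rw [as_swap12]; exact neg_mem (by assumption))

/-- stability under multiplication by generators, in a uniform form -/
theorem St_of {T : AddSubgroup A} (h : ∀ g, (g = a ∨ g = b ∨ g = c) → ∀ y ∈ T, g * y ∈ T ∧ y * g ∈ T) :
    St a b c T where
  la y hy := (h a (Or.inl rfl) y hy).1
  lb y hy := (h b (Or.inr (Or.inl rfl)) y hy).1
  lc y hy := (h c (Or.inr (Or.inr rfl)) y hy).1
  ra y hy := (h a (Or.inl rfl) y hy).2
  rb y hy := (h b (Or.inr (Or.inl rfl)) y hy).2
  rc y hy := (h c (Or.inr (Or.inr rfl)) y hy).2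

/-- associators with one generator -/
theorem one_gen (hG : Gen a b c) (hD : ∀ w, ∀ y ∈ D, w * y ∈ D ∧ y * w ∈ D)
    (hu : as a b c ∈ D) (g y z : A) (hg : g = a ∨ g = b ∨ g = c) : as g y z ∈ D := by
  let T : AddSubgroup A :=
    { carrier := {y | ∀ g, (g = a ∨ g = b ∨ g = c) → ∀ z, as g y z ∈ D}
      add_mem' := fun {x y} hx hy g hg z => by
        rw [as_add2]; exact add_mem (hx g hg z) (hy g hg z)
      zero_mem' := fun g hg z => by rw [as_zero2]; exact zero_mem _
      neg_mem' := fun {x} hx g hg z => by rw [as_neg2]; exact neg_mem (hx g hg z) }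
  have h2 := two_gen hG hD hu
  have hT : St a b c T := by
    apply St_of
    intro h hh y hy
    have hy' : ∀ g, (g = a ∨ g = b ∨ g = c) → ∀ z, as g y z ∈ D := hy
    have k1 : ∀ g, (g = a ∨ g = b ∨ g = c) → ∀ z, as (y * h) z g ∈ D := by
      intro g hg z
      have e1 := f_comm h y z g
      have e2 : f h y z g = as (h * y) z g - y * as h z g - as y z g * h := rfl
      have e3 : as (h * y - y * h) z g = as (h * y) z g - as (y * h) z g := as_sub1 _ _ _ _
      have e4 : as (y * h) z g = as (z * g - g * z) h y + y * as h z g + as y z g * h := by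
        rw [e3, e2] at e1
        linear_combination (norm := abel) e1
      rw [e4]
      refine add_mem (add_mem ?_ (hD _ _ ?_).1) (hD _ _ ?_).2
      · rw [as_cyc]; exact hy' h hh _
      · rw [← as_cyc]; exact h2 g h z hg hh
      · rw [← as_cyc]; exact hy' g hg z
    have k2 : ∀ g, (g = a ∨ g = b ∨ g = c) → ∀ z, as (h * y) z g ∈ D := by
      intro g hg z
      have e1 := f_swap12 h y z g
      have e2 : f h y z g = as (h * y) z g - y * as h z g - as y z g * h := rfl
      have e3 : f y h z g = as (y * h) z g - h * as y z g - as h z g * y := rfl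
      have e4 : as (h * y) z g = y * as h z g + as y z g * h
          - as (y * h) z g + h * as y z g + as h z g * y := by
        rw [e3, e2] at e1
        linear_combination (norm := abel) e1
      have m1 : as h z g ∈ D := by rw [← as_cyc]; exact h2 g h z hg hh
      have m2 : as y z g ∈ D := by rw [← as_cyc]; exact hy' g hg z
      rw [e4]
      exact add_mem (add_mem (sub_mem (add_mem (hD _ _ m1).1 (hD _ _ m2).2) (k1 g hg z))
        (hD _ _ m2).1) (hD _ _ m1).2
    refine ⟨?_, ?_⟩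
    · intro g hg z
      rw [as_cyc]
      exact k2 g hg z
    · intro g hg z
      rw [as_cyc]
      exact k1 g hg z
  have := hT.top hG (fun g hg z => h2 g a z hg (Or.inl rfl))
    (fun g hg z => h2 g b z hg (Or.inr (Or.inl rfl)))
    (fun g hg z => h2 g c z hg (Or.inr (Or.inr rfl))) y
  exact this g hg z

/-- all associators lie in the ideal -/
theorem as_mem (hG : Gen a b c) (hD : ∀ w, ∀ y ∈ D, w * y ∈ D ∧ y * w ∈ D)
    (hu : as a b c ∈ D) (x y z : A) : as x y z ∈ D := by
  let T : AddSubgroup A :=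
    { carrier := {w | ∀ y z, as w y z ∈ D}
      add_mem' := fun {x y} hx hy v z => by
        rw [as_add1]; exact add_mem (hx v z) (hy v z)
      zero_mem' := fun y z => by rw [as_zero1]; exact zero_mem _
      neg_mem' := fun {x} hx y z => by rw [as_neg1]; exact neg_mem (hx y z) }
  have h1 := one_gen hG hD hu
  have hT : St a b c T := by
    apply St_of
    intro h hh w hw
    have hw' : ∀ y z, as w y z ∈ D := hw
    have k : ∀ y z, f h w y z ∈ D := by
      intro y z
      rw [← f_cyc2]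
      have e2 : f y z h w = as (y * z) h w - z * as y h w - as z h w * y := rfl
      rw [e2]
      have m1 : as (y * z) h w ∈ D := by rw [as_cyc]; exact h1 h _ _ hh
      have m2 : as y h w ∈ D := by rw [as_cyc]; exact h1 h _ _ hh
      have m3 : as z h w ∈ D := by rw [as_cyc]; exact h1 h _ _ hh
      exact sub_mem (sub_mem m1 (hD _ _ m2).1) (hD _ _ m3).2
    refine ⟨?_, ?_⟩
    · intro y z
      have e1 : as (h * w) y z = f h w y z + w * as h y z + as w y z * h := by
        simp only [f]; abel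
      rw [e1]
      exact add_mem (add_mem (k y z) (hD _ _ (h1 h _ _ hh)).1) (hD _ _ (hw' y z)).2
    · intro y z
      have e1 : as (w * h) y z = f w h y z + h * as w y z + as h y z * w := by
        simp only [f]; abel
      rw [e1, f_swap12]
      exact add_mem (add_mem (neg_mem (k y z)) (hD _ _ (hw' y z)).1) (hD _ _ (h1 h _ _ hh)).2
  exact hT.top hG (fun y z => h1 a y z (Or.inl rfl)) (fun y z => h1 b y z (Or.inr (Or.inl rfl)))
    (fun y z => h1 c y z (Or.inr (Or.inr rfl))) x y z

end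

end Pool.Agent.AltRing
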