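import Mathlib

/-!
# Identities in alternative rings

All identities are valid over the integers, in every characteristic.
-/

set_option autoImplicit false
set_option linter.unusedSimpArgs false
set_option linter.unusedVariables false
set_option linter.unusedSectionVars false

namespace Pool.Agent.AltRing

/-- A (not necessarily associative, not necessarily unital) ring is alternative. -/
class IsAlt (A : Type*) [NonUnitalNonAssocRing A] : Prop where
  left : ∀ a b : A, (a * a) * b = a * (a * b)
  right : ∀ a b : A, (b * a) * a = b * (a * a)

section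

variable {A : Type*} [NonUnitalNonAssocRing A]

/-- The associator. -/
def as (x y z : A) : A := x * y * z - x * (y * z)

theorem as_def (x y z : A) : as x y z = x * y * z - x * (y * z) := rfl

theorem as_add1 (x x' y z : A) : as (x + x') y z = as x y z + as x' y z := by
  simp only [as_def, mul_add, add_mul]; abel
theorem as_add2 (x y y' z : A) : as x (y + y') z = as x y z + as x y' z := by
  simp only [as_def, mul_add, add_mul]; abel
theorem as_add3 (x y z z' : A) : as x y (z + z') = as x y z + as x y z' := by
  simp only [as_def, mul_add, add_mul]; abel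
theorem as_neg1 (x y z : A) : as (-x) y z = - as x y z := by
  simp only [as_def, mul_neg, neg_mul]; abel
theorem as_neg2 (x y z : A) : as x (-y) z = - as x y z := by
  simp only [as_def, mul_neg, neg_mul]; abel
theorem as_neg3 (x y z : A) : as x y (-z) = - as x y z := by
  simp only [as_def, mul_neg, neg_mul]; abel
theorem as_sub1 (x x' y z : A) : as (x - x') y z = as x y z - as x' y z := by
  simp only [sub_eq_add_neg, as_add1, as_neg1]
theorem as_sub2 (x y y' z : A) : as x (y - y') z = as x y z - as x y' z := by
  simp only [sub_eq_add_neg, as_add2, as_neg2]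
theorem as_sub3 (x y z z' : A) : as x y (z - z') = as x y z - as x y z' := by
  simp only [sub_eq_add_neg, as_add3, as_neg3]
theorem as_zero1 (y z : A) : as 0 y z = 0 := by simp [as_def]
theorem as_zero2 (x z : A) : as x 0 z = 0 := by simp [as_def]
theorem as_zero3 (x y : A) : as x y 0 = 0 := by simp [as_def]

/-- The Teichmueller identity. -/
theorem teich (w x y z : A) :
    as (w * x) y z - as w (x * y) z + as w x (y * z) = w * as x y z + as w x y * z := by
  simp only [as_def, mul_sub, sub_mul]; abel

/-- The operator `V`. -/
def V (g x : A) : A := g * x + x * g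
/-- The operator `N`. -/
def N (g x : A) : A := g * (x * g)
/-- The polarised operator `B`. -/
def B (g h x : A) : A := g * (x * h) + h * (x * g)
/-- The operator `P`. -/
def P (g h x : A) : A := g * (h * x) - (h * g) * x
/-- The operator `P'`. -/
def P' (g h x : A) : A := (x * g) * h - x * (h * g)
/-- The function `f` of Kleinfeld. -/
def f (w x y z : A) : A := as (w * x) y z - x * as w y z - as x y z * w

theorem V_add (g x y : A) : V g (x + y) = V g x + V g y := by
  simp only [V, mul_add, add_mul]; abel
theorem V_add1 (g h x : A) : V (g + h) x = V g x + V h x := by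
  simp only [V, mul_add, add_mul]; abel
theorem V_neg (g x : A) : V g (-x) = - V g x := by
  simp only [V, mul_neg, neg_mul]; abel
theorem V_neg1 (g x : A) : V (-g) x = - V g x := by
  simp only [V, mul_neg, neg_mul]; abel
theorem V_zero (g : A) : V g (0 : A) = 0 := by simp [V]
theorem V_zero1 (x : A) : V (0 : A) x = 0 := by simp [V]
theorem V_sub (g x y : A) : V g (x - y) = V g x - V g y := by
  simp only [sub_eq_add_neg, V_add, V_neg]

theorem N_add (g x y : A) : N g (x + y) = N g x + N g y := by
  simp only [N, mul_add, add_mul]
theorem N_neg (g x : A) : N g (-x) = - N g x := by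
  simp only [N, mul_neg, neg_mul]
theorem N_neg1 (g x : A) : N (-g) x = N g x := by
  simp only [N, mul_neg, neg_mul, neg_neg]
theorem N_zero (g : A) : N g (0 : A) = 0 := by simp [N]
theorem N_sub (g x y : A) : N g (x - y) = N g x - N g y := by
  simp only [sub_eq_add_neg, N_add, N_neg]
theorem N_add1 (g h x : A) : N (g + h) x = N g x + N h x + B g h x := by
  simp only [N, B, mul_add, add_mul]; abel
theorem B_eq (g h x : A) : B g h x = N (g + h) x - N g x - N h x := by
  rw [N_add1]; abel
theorem B_comm (g h x : A) : B g h x = B h g x := by
  simp only [B]; abel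
theorem B_add (g h x y : A) : B g h (x + y) = B g h x + B g h y := by
  simp only [B, mul_add, add_mul]; abel
theorem B_neg (g h x : A) : B g h (-x) = - B g h x := by
  simp only [B, mul_neg, neg_mul]; abel
theorem B_zero (g h : A) : B g h (0 : A) = 0 := by simp [B]
theorem B_sub (g h x y : A) : B g h (x - y) = B g h x - B g h y := by
  simp only [sub_eq_add_neg, B_add, B_neg]

theorem P_add (g h x y : A) : P g h (x + y) = P g h x + P g h y := by
  simp only [P, mul_add, add_mul]; abel
theorem P_neg (g h x : A) : P g h (-x) = - P g h x := by
  simp only [P, mul_neg, neg_mul]; abel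
theorem P_sub (g h x y : A) : P g h (x - y) = P g h x - P g h y := by
  simp only [sub_eq_add_neg, P_add, P_neg]
theorem P_zero (g h : A) : P g h (0 : A) = 0 := by simp [P]
theorem P_add1 (g g' h x : A) : P (g + g') h x = P g h x + P g' h x := by
  simp only [P, mul_add, add_mul]; abel
theorem P_add2 (g h h' x : A) : P g (h + h') x = P g h x + P g h' x := by
  simp only [P, mul_add, add_mul]; abel
theorem P_neg1 (g h x : A) : P (-g) h x = - P g h x := by
  simp only [P, mul_neg, neg_mul]; abel
theorem P_neg2 (g h x : A) : P g (-h) x = - P g h x := by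
  simp only [P, mul_neg, neg_mul]; abel
theorem P_zero1 (h x : A) : P (0 : A) h x = 0 := by simp [P]
theorem P_zero2 (g x : A) : P g (0 : A) x = 0 := by simp [P]

theorem P'_add (g h x y : A) : P' g h (x + y) = P' g h x + P' g h y := by
  simp only [P', mul_add, add_mul]; abel
theorem P'_neg (g h x : A) : P' g h (-x) = - P' g h x := by
  simp only [P', mul_neg, neg_mul]; abel
theorem P'_sub (g h x y : A) : P' g h (x - y) = P' g h x - P' g h y := by
  simp only [sub_eq_add_neg, P'_add, P'_neg]
theorem P'_zero (g h : A) : P' g h (0 : A) = 0 := by simp [P']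
theorem P'_add1 (g g' h x : A) : P' (g + g') h x = P' g h x + P' g' h x := by
  simp only [P', mul_add, add_mul]; abel
theorem P'_add2 (g h h' x : A) : P' g (h + h') x = P' g h x + P' g h' x := by
  simp only [P', mul_add, add_mul]; abel
theorem P'_neg1 (g h x : A) : P' (-g) h x = - P' g h x := by
  simp only [P', mul_neg, neg_mul]; abel
theorem P'_neg2 (g h x : A) : P' g (-h) x = - P' g h x := by
  simp only [P', mul_neg, neg_mul]; abel
theorem P'_zero1 (h x : A) : P' (0 : A) h x = 0 := by simp [P']
theorem P'_zero2 (g x : A) : P' g (0 : A) x = 0 := by simp [P']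

end

section

variable {A : Type*} [NonUnitalNonAssocRing A] [IsAlt A]

theorem as_self12 (x y : A) : as x x y = 0 := by
  simp only [as_def, IsAlt.left, sub_self]
theorem as_self23 (x y : A) : as x y y = 0 := by
  simp only [as_def, IsAlt.right, sub_self]

theorem as_swap12 (x y z : A) : as x y z = - as y x z := by
  have h := as_self12 (x + y) z
  rw [as_add1, as_add2, as_add2, as_self12, as_self12, zero_add, add_zero] at h
  linear_combination (norm := abel) h

theorem as_swap23 (x y z : A) : as x y z = - as x z y := by
  have h := as_self23 x (y + z)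
  rw [as_add2, as_add3, as_add3, as_self23, as_self23, zero_add, add_zero] at h
  linear_combination (norm := abel) h

/-- cyclic shift -/
theorem as_cyc (x y z : A) : as x y z = as y z x := by
  rw [as_swap12 x y z, as_swap23 y x z, neg_neg]

theorem as_swap13 (x y z : A) : as x y z = - as z y x := by
  rw [as_cyc x y z, as_swap12 y z x]

theorem as_self13 (x y : A) : as x y x = 0 := by
  rw [as_swap12, as_self23, neg_zero]

/-- flexibility -/
theorem flex (x y : A) : x * y * x = x * (y * x) := by
  have h := as_self13 x y
  exact sub_eq_zero.mp h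

theorem f_swap34 (w x y z : A) : f w x y z = - f w x z y := by
  simp only [f]
  linear_combination (norm := (simp only [as_def, mul_sub, sub_mul, mul_add, add_mul, mul_neg, neg_mul, mul_zero, zero_mul]; abel))
    as_swap23 (w * x) y z - x * as_swap23 w y z - as_swap23 x y z * w

theorem f_G (w x y z : A) : f w x y z - f x y z w + f y z w x =
    (w * as x y z - as x y z * w) - (x * as y z w - as y z w * x)
      + (y * as z w x - as z w x * y) - (z * as w x y - as w x y * z) := by
  simp only [f]
  linear_combination (norm := (simp only [as_def, mul_sub, sub_mul, mul_add, add_mul, mul_neg, neg_mul, mul_zero, zero_mul]; abel))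
    teich w x y z + as_cyc w (x * y) z - as_cyc w x (y * z) - as_cyc x (y * z) w
      - x * as_cyc w y z + y * as_cyc x z w - z * as_cyc y w x

theorem f_cyc (w x y z : A) : f w x y z = - f z w x y := by
  linear_combination (norm := abel) f_G w x y z + f_G x y z w

theorem three_f (w x y z : A) : f w x y z + f w x y z + f w x y z =
    (w * as x y z - as x y z * w) - (x * as y z w - as y z w * x)
      + (y * as z w x - as z w x * y) - (z * as w x y - as w x y * z) := by
  linear_combination (norm := abel) f_G w x y z - f_cyc y z w x + f_cyc x y z w + f_cyc x y z w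

theorem f_swap23 (w x y z : A) : f w x y z = - f w y x z := by
  linear_combination (norm := abel) f_cyc w x y z - f_swap34 z w x y + f_cyc w y x z

theorem f_swap12 (w x y z : A) : f w x y z = - f x w y z := by
  linear_combination (norm := abel) f_cyc w x y z - f_swap23 z w x y + f_cyc x w y z

theorem f_self34 (w x y : A) : f w x y y = 0 := by
  simp only [f, as_self23, mul_zero, zero_mul, sub_zero]
theorem f_self14 (w x y : A) : f y w x y = 0 := by
  linear_combination (norm := abel) f_cyc w x y y - f_self34 w x y
theorem f_self12 (w x y : A) : f y y w x = 0 := by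
  linear_combination (norm := abel) f_cyc y w x y - f_self14 w x y
theorem f_self23 (w x y : A) : f x y y w = 0 := by
  linear_combination (norm := abel) f_cyc y y w x - f_self12 w x y
theorem f_self13 (w x y : A) : f y w y x = 0 := by
  rw [f_swap23, f_self12, neg_zero]
theorem f_self24 (w x y : A) : f w y x y = 0 := by
  rw [f_swap23, f_self34, neg_zero]


/-- O4 -/
theorem as_l1 (a b x : A) : as a b (a * x) = as a b x * a := by
  linear_combination (norm := (simp only [V, N, B, P, P', f, as_def, mul_sub, sub_mul, mul_add, add_mul, mul_neg, neg_mul, mul_zero, zero_mul, neg_zero]; abel)) f_self13 x b a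
    - as_cyc (a * x) a b + x * as_self12 a b + as_cyc x a b * a

theorem as_r1 (a b x : A) : as a b (x * a) = a * as a b x := by
  linear_combination (norm := (simp only [V, N, B, P, P', f, as_def, mul_sub, sub_mul, mul_add, add_mul, mul_neg, neg_mul, mul_zero, zero_mul, neg_zero]; abel)) f_self23 b x a
    - as_cyc (x * a) a b + a * as_cyc x a b + as_self12 a b * x

theorem as_l2 (a b x : A) : as a b (b * x) = as a b x * b := by
  linear_combination (norm := (simp only [V, N, B, P, P', f, as_def, mul_sub, sub_mul, mul_add, add_mul, mul_neg, neg_mul, mul_zero, zero_mul, neg_zero]; abel)) as_swap12 a b (b * x) - as_l1 b a x - as_swap12 a b x * b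

theorem as_r2 (a b x : A) : as a b (x * b) = b * as a b x := by
  linear_combination (norm := (simp only [V, N, B, P, P', f, as_def, mul_sub, sub_mul, mul_add, add_mul, mul_neg, neg_mul, mul_zero, zero_mul, neg_zero]; abel)) as_swap12 a b (x * b) - as_r1 b a x - b * as_swap12 a b x

theorem as_p1 (a b x : A) : as a (a * b) x = as a b x * a := by
  linear_combination (norm := (simp only [V, N, B, P, P', f, as_def, mul_sub, sub_mul, mul_add, add_mul, mul_neg, neg_mul, mul_zero, zero_mul, neg_zero]; abel)) as_swap12 a (a * b) x - f_self13 b x a - b * as_self12 a x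
    - as_swap12 a b x * a

theorem as_p2 (a b x : A) : as a (b * a) x = a * as a b x := by
  linear_combination (norm := (simp only [V, N, B, P, P', f, as_def, mul_sub, sub_mul, mul_add, add_mul, mul_neg, neg_mul, mul_zero, zero_mul, neg_zero]; abel)) as_swap12 a (b * a) x - f_self23 x b a - as_self12 a x * b
    - a * as_swap12 a b x

/-- right Moufang -/
theorem mouf_r (p c x : A) : ((p * c) * x) * c = p * (c * (x * c)) := by
  linear_combination (norm := (simp only [V, N, B, P, P', f, as_def, mul_sub, sub_mul, mul_add, add_mul, mul_neg, neg_mul, mul_zero, zero_mul, neg_zero]; abel)) as_cyc (p * c) x c + as_cyc x c (p * c) + as_p2 c p x + as_r2 p c x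
    + c * as_swap12 c p x

/-- left Moufang -/
theorem mouf_l (c x p : A) : (c * (x * c)) * p = c * (x * (c * p)) := by
  linear_combination (norm := (simp only [V, N, B, P, P', f, as_def, mul_sub, sub_mul, mul_add, add_mul, mul_neg, neg_mul, mul_zero, zero_mul, neg_zero]; abel)) as_p2 c x p + c * as_swap12 c x p

/-- middle Moufang -/
theorem mouf_m (g k y : A) : (g * k) * (y * g) = g * ((k * y) * g) := by
  linear_combination (norm := (simp only [V, N, B, P, P', f, as_def, mul_sub, sub_mul, mul_add, add_mul, mul_neg, neg_mul, mul_zero, zero_mul, neg_zero]; abel)) as_r1 g k y + g * as_cyc g k y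

theorem P_eq (g h x : A) : P g h x = (g * h - h * g) * x - as g h x := by
  simp only [P, as_def, sub_mul]; abel
theorem P'_eq (g h x : A) : P' g h x = x * (g * h - h * g) + as g h x := by
  linear_combination (norm := (simp only [V, N, B, P, P', f, as_def, mul_sub, sub_mul, mul_add, add_mul, mul_neg, neg_mul, mul_zero, zero_mul, neg_zero]; abel)) as_cyc x g h
theorem P_self (g x : A) : P g g x = 0 := by
  linear_combination (norm := (simp only [V, N, B, P, P', f, as_def, mul_sub, sub_mul, mul_add, add_mul, mul_neg, neg_mul, mul_zero, zero_mul, neg_zero]; abel)) - as_self12 g x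
theorem P'_self (g x : A) : P' g g x = 0 := by
  linear_combination (norm := (simp only [V, N, B, P, P', f, as_def, mul_sub, sub_mul, mul_add, add_mul, mul_neg, neg_mul, mul_zero, zero_mul, neg_zero]; abel)) as_self23 x g
theorem P_swap (g h x : A) : P g h x = - P h g x := by
  linear_combination (norm := (simp only [V, N, B, P, P', f, as_def, mul_sub, sub_mul, mul_add, add_mul, mul_neg, neg_mul, mul_zero, zero_mul, neg_zero]; abel)) - as_swap12 g h x
theorem P'_swap (g h x : A) : P' g h x = - P' h g x := by
  linear_combination (norm := (simp only [V, N, B, P, P', f, as_def, mul_sub, sub_mul, mul_add, add_mul, mul_neg, neg_mul, mul_zero, zero_mul, neg_zero]; abel)) as_swap23 x g h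

/-- O5 -/
theorem V_mul_left (g h x : A) : V g (h * x) = h * V g x + P g h x := by
  linear_combination (norm := (simp only [V, N, B, P, P', f, as_def, mul_sub, sub_mul, mul_add, add_mul, mul_neg, neg_mul, mul_zero, zero_mul, neg_zero]; abel)) as_swap23 h x g
theorem V_mul_right (g h x : A) : V g (x * h) = V g x * h - P' g h x := by
  linear_combination (norm := (simp only [V, N, B, P, P', f, as_def, mul_sub, sub_mul, mul_add, add_mul, mul_neg, neg_mul, mul_zero, zero_mul, neg_zero]; abel)) - as_cyc g x h

/-- O8 -/
theorem f_cyc2 (a b c x : A) : f c x a b = f a b c x := by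
  linear_combination (norm := abel) f_cyc x a b c - f_cyc a b c x

theorem as_mul3l (a b c x : A) :
    as a b (c * x) = f a b c x + x * as a b c + as a b x * c := by
  linear_combination (norm := (simp only [V, N, B, P, P', f, as_def, mul_sub, sub_mul, mul_add, add_mul, mul_neg, neg_mul, mul_zero, zero_mul, neg_zero]; abel)) f_cyc2 a b c x - as_cyc (c * x) a b + x * as_cyc c a b
    + as_cyc x a b * c

theorem as_mul3r (a b c x : A) :
    as a b (x * c) = - f a b c x + c * as a b x + as a b c * x := by
  linear_combination (norm := (simp only [V, N, B, P, P', f, as_def, mul_sub, sub_mul, mul_add, add_mul, mul_neg, neg_mul, mul_zero, zero_mul, neg_zero]; abel)) - f_cyc2 a b c x + f_swap12 x c a b - as_cyc (x * c) a b + c * as_cyc x a b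
    + as_cyc c a b * x

/-- O7 -/
theorem P'_as (a b w : A) : P' a b (as a b w) = 0 := by
  have h1 : f a b (a * b) w = f (a * b) w a b := (f_cyc2 a b (a * b) w).symm
  have e2 := as_p1 a b w
  have e3 := as_p2 b a w
  have e4 : (a * b) * w = a * (b * w) + as a b w := by rw [as_def]; abel
  have e5 : as (a * b) a b = 0 := by
    rw [as_cyc, as_l1, as_self23, zero_mul]
  have e6 : as (a * b * w) a b = as a b w * b * a + as a b (as a b w) := by
    rw [as_cyc, e4, as_add3, as_l1, as_l2]
  have e7 : as b a w = - as a b w := as_swap12 b a w
  simp only [f] at h1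
  rw [as_self12, e2, e3, e5, e6, e7, as_cyc w a b, mul_zero, as_cyc a b (as a b w)] at h1
  generalize as a b w = T at h1 ⊢
  rw [P'_swap]
  linear_combination (norm := (simp only [V, N, B, P, P', f, as_def, mul_sub, sub_mul, mul_add, add_mul, mul_neg, neg_mul, mul_zero, zero_mul, neg_zero]; abel)) h1

open MulOpposite in
instance instOp : IsAlt Aᵐᵒᵖ where
  left a b := by
    apply unop_injective
    simp only [unop_mul, IsAlt.right]
  right a b := by
    apply unop_injective
    simp only [unop_mul, IsAlt.left]

open MulOpposite in
theorem as_op (x y z : A) : as (op x) (op y) (op z) = op (as x y z) := by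
  rw [as_swap13 x y z]
  apply unop_injective
  simp only [as_def, unop_sub, unop_mul, unop_op, unop_neg, neg_sub]

open MulOpposite in
theorem P_op (x y z : A) : P (op x) (op y) (op z) = op (- P' x y z) := by
  rw [← P'_swap]
  apply unop_injective
  simp only [P, P', unop_sub, unop_mul, unop_op, unop_neg, neg_sub]

open MulOpposite in
theorem P'_op (x y z : A) : P' (op x) (op y) (op z) = op (- P x y z) := by
  rw [← P_swap]
  apply unop_injective
  simp only [P, P', unop_sub, unop_mul, unop_op, unop_neg, neg_sub]

open MulOpposite in
theorem P_as (a b w : A) : P a b (as a b w) = 0 := by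
  have h := P'_as (op a) (op b) (op w)
  rw [as_op, P'_op] at h
  have h2 : - P a b (as a b w) = 0 := by
    rw [← op_zero] at h
    exact op_injective h
  exact neg_eq_zero.mp h2

/-- O10 -/
theorem N_mul_left (g k y : A) : N g (k * y) = k * N g y + P g k y * g := by
  linear_combination (norm := (simp only [V, N, B, P, P', f, as_def, mul_sub, sub_mul, mul_add, add_mul, mul_neg, neg_mul, mul_zero, zero_mul, neg_zero]; abel)) - flex g (k * y) + mouf_r k g y
theorem N_mul_right (g k y : A) : N g (y * k) = N g y * k - g * P' g k y := by
  linear_combination (norm := (simp only [V, N, B, P, P', f, as_def, mul_sub, sub_mul, mul_add, add_mul, mul_neg, neg_mul, mul_zero, zero_mul, neg_zero]; abel)) - mouf_l g y k + g * as_swap23 y k g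

/-- O11 -/
theorem P'_mul_left (a b c x : A) : P' a b (c * x) = c * P' a b x + as a b c * x := by
  linear_combination (norm := (simp only [V, N, B, P, P', f, as_def, mul_sub, sub_mul, mul_add, add_mul, mul_neg, neg_mul, mul_zero, zero_mul, neg_zero]; abel)) three_f a b c x - f_swap12 a b c x + f_cyc2 a b c x
    - as_cyc (a * b) c x + as_cyc (b * a) c x + b * as_cyc a c x - as_cyc a c x * b
    + x * as_cyc c a b

theorem P_mul_right (a b c x : A) : P a b (x * c) = P a b x * c - x * as a b c := by
  linear_combination (norm := (simp only [V, N, B, P, P', f, as_def, mul_sub, sub_mul, mul_add, add_mul, mul_neg, neg_mul, mul_zero, zero_mul, neg_zero]; abel)) three_f a b c x - f_swap12 a b c x + f_cyc2 a b c x - f_swap12 x c a b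
    + as_cyc (x * c) a b + as_swap23 (b * a) x c - as_swap23 (a * b) x c + b * as_cyc a c x
    - as_cyc a c x * b - as_cyc x a b * c - as_cyc c a b * x

/-- O12 -/
theorem P_mul_left (a b c x : A) :
    P a b (c * x) = ((a * b - b * a) * c) * x - c * as a b x - as a b c * x := by
  linear_combination (norm := (simp only [V, N, B, P, P', f, as_def, mul_sub, sub_mul, mul_add, add_mul, mul_neg, neg_mul, mul_zero, zero_mul, neg_zero]; abel)) - P'_mul_left a b c x - as_cyc (a * b) c x + as_cyc (b * a) c x
    + as_cyc (c * x) a b - c * as_cyc x a b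

theorem comm_as (a b c x : A) : as (a * b - b * a) c x =
    f a b c x + f a b c x - (a * as b c x - as b c x * a) + (b * as a c x - as a c x * b) := by
  linear_combination (norm := (simp only [V, N, B, P, P', f, as_def, mul_sub, sub_mul, mul_add, add_mul, mul_neg, neg_mul, mul_zero, zero_mul, neg_zero]; abel)) - f_swap12 a b c x

theorem P_cyc (a b c x : A) : P a b (c * x) + P b c (a * x) + P c a (b * x) =
    c * P a b x + a * P b c x + b * P c a x + x * as a b c + x * as a b c + as a b c * x := by
  linear_combination (norm := (simp only [V, N, B, P, P', f, as_def, mul_sub, sub_mul, mul_add, add_mul, mul_neg, neg_mul, mul_zero, zero_mul, neg_zero]; abel)) - (2 : ℤ) • three_f a b c x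
    + (2 : ℤ) • f_swap12 c b a x - (2 : ℤ) • f_swap23 b c a x + (4 : ℤ) • f_swap12 b a c x
    + (2 : ℤ) • f_swap23 a c b x
    - as_swap12 (b * a) c x - as_swap12 (c * b) a x - as_swap12 (a * c) b x
    + (2 : ℤ) • (as_swap12 b c x * a) + (2 : ℤ) • (b * as_swap23 c x a)
    + (2 : ℤ) • (as_cyc a c x * b) - (2 : ℤ) • (c * as_cyc x a b)
    + (2 : ℤ) • (as_cyc x a b * c) + (2 : ℤ) • (as_swap12 a b x * c)
    - as_swap13 c b a * x - as_swap23 a c b * x - as_swap12 b a c * x

theorem V_N (a c y : A) : V a (N c y) = N c (V a y) + P a c y * c - c * P' a c y := by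
  linear_combination (norm := (simp only [V, N, B, P, P', f, as_def, mul_sub, sub_mul, mul_add, add_mul, mul_neg, neg_mul, mul_zero, zero_mul, neg_zero]; abel)) V_mul_left a c (y * c) + c * V_mul_right a c y + P_mul_right a c c y
    - y * as_self23 a c

theorem V_V (g h x : A) : V g (V h x) = V h (V g x) + P g h x - P' g h x := by
  have e1 := V_mul_left g h x
  have e2 := V_mul_right g h x
  have e : V g (V h x) = V g (h * x) + V g (x * h) := V_add g _ _
  rw [e, e1, e2]
  simp only [V]
  abel

theorem N_N (g k x : A) : N g (N k x) = N k (N g x) - k * (g * P' g k x) + (P g k x * k) * g := by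
  have e1 : N g (N k x) = k * N g (x * k) + P g k (x * k) * g := N_mul_left g k (x * k)
  rw [e1, N_mul_right, P_mul_right, as_self23, mul_zero, sub_zero, mul_sub]
  simp only [N]

theorem V_mul (a b x : A) : V (a * b) x = V a (V b x) - B a b x + P' a b x := by
  linear_combination (norm := (simp only [V, N, B, P, P', f, as_def, mul_sub, sub_mul, mul_add, add_mul, mul_neg, neg_mul, mul_zero, zero_mul, neg_zero]; abel)) as_cyc a b x - as_swap23 x a b

theorem P_a_ab (a b x : A) : P a (a * b) x = a * P a b x := by
  linear_combination (norm := (simp only [V, N, B, P, P', f, as_def, mul_sub, sub_mul, mul_add, add_mul, mul_neg, neg_mul, mul_zero, zero_mul, neg_zero]; abel)) - as_p2 a b x - flex a b * x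
theorem P_b_ab (a b x : A) : P b (a * b) x = - P a b (b * x) := by
  linear_combination (norm := (simp only [V, N, B, P, P', f, as_def, mul_sub, sub_mul, mul_add, add_mul, mul_neg, neg_mul, mul_zero, zero_mul, neg_zero]; abel)) - as_p2 b a x + as_swap12 b (b * a) x - as_p1 b a x
    - as_swap12 a (b * b) x + f_self12 a x b - IsAlt.right b a * x - a * IsAlt.left b x
    - flex b a * x

open MulOpposite in
theorem P'_a_ab (a b x : A) : P' a (a * b) x = P' a b (x * a) := by
  have h := P_b_ab (op b) (op a) (op x)
  rw [← op_mul, ← op_mul, P_op, P_op, ← op_neg] at h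
  have h2 := op_injective h
  rw [P'_swap a b]
  linear_combination (norm := abel) - h2

open MulOpposite in
theorem P'_b_ab (a b x : A) : P' b (a * b) x = - (P' a b x * b) := by
  have h := P_a_ab (op b) (op a) (op x)
  rw [← op_mul, P_op, P_op, ← op_mul] at h
  have h2 := op_injective h
  rw [P'_swap a b]
  simp only [neg_mul] at h2 ⊢
  linear_combination (norm := abel) - h2

end

end Pool.Agent.AltRing
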