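import Pool.Agent.Lib.MP_a8cdcd_al.Theta

/-!
# The module generated by the associator is closed under the generators
-/

set_option autoImplicit false
set_option linter.unusedSimpArgs false
set_option linter.unusedVariables false
set_option linter.unusedSectionVars false

namespace Pool.Agent.AltRing

variable {A : Type*} [NonUnitalNonAssocRing A] [IsAlt A]

theorem gg (g y : A) : g * (g * y) = g * V g y - N g y := by
  simp only [V, N, mul_add]; abel
theorem hg (g h y : A) : h * (g * y) = g * V h y + h * V g y - B g h y - g * (h * y) := by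
  simp only [V, B, mul_add]; abel

section
variable {L : AddSubgroup A} {x g h k : A}

theorem Kill.V_l (hx : Kill L x) (hg : g ∈ L) (hh : h ∈ L) : V g (h * x) = h * V g x := by
  rw [V_mul_left, (hx g hg h hh).1, add_zero]
theorem Kill.N_l (hx : Kill L x) (hg : g ∈ L) (hh : h ∈ L) : N g (h * x) = h * N g x := by
  rw [N_mul_left, (hx g hg h hh).1, zero_mul, add_zero]
theorem Kill.B_l (hx : Kill L x) (hg : g ∈ L) (hh : h ∈ L) (hk : k ∈ L) :
    B g k (h * x) = h * B g k x := by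
  rw [B_eq, B_eq, hx.N_l (add_mem hg hk) hh, hx.N_l hg hh, hx.N_l hk hh, mul_sub, mul_sub]

/-- pattern `h (g (h x))` -/
theorem hgh (g h y p : A) (hp : P h g y = p) (hc : h * p = p * h) :
    h * (g * (h * y)) = h * (h * V g y) - h * B g h y + g * N h y := by
  have e1 : g * (h * y) = g * V h y + h * V g y - B g h y - h * (g * y) := by
    rw [hg g h y]; abel
  have e2 : h * (h * (g * y)) = h * (g * V h y) + h * p - g * N h y - p * h := by
    rw [gg, V_mul_left, N_mul_left, hp, mul_add]; abel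
  rw [e1, mul_sub, mul_sub, mul_add, e2, hc]
  abel

end

/-- stability under the ten operators -/
structure Stab (a b c : A) (Q : AddSubgroup A) : Prop where
  le : Q ≤ GI (Lc a b c)
  Va : ∀ x ∈ Q, V a x ∈ Q
  Vb : ∀ x ∈ Q, V b x ∈ Q
  Vc : ∀ x ∈ Q, V c x ∈ Q
  Na : ∀ x ∈ Q, N a x ∈ Q
  Nb : ∀ x ∈ Q, N b x ∈ Q
  Nc : ∀ x ∈ Q, N c x ∈ Q
  Bab : ∀ x ∈ Q, B a b x ∈ Q
  Bbc : ∀ x ∈ Q, B b c x ∈ Q
  Bca : ∀ x ∈ Q, B c a x ∈ Q
  Th : ∀ x ∈ Q, Th a b c x ∈ Q

/-- the eight types of elements -/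
inductive Typ (a b c : A) (Q : AddSubgroup A) : A → Prop
  | t0 (q : A) (h : q ∈ Q) : Typ a b c Q q
  | t1 (q : A) (h : q ∈ Q) : Typ a b c Q (a * q)
  | t2 (q : A) (h : q ∈ Q) : Typ a b c Q (b * q)
  | t3 (q : A) (h : q ∈ Q) : Typ a b c Q (a * (b * q))
  | t4 (q : A) (h : q ∈ Q) : Typ a b c Q (c * q)
  | t5 (q : A) (h : q ∈ Q) : Typ a b c Q (a * (c * q))
  | t6 (q : A) (h : q ∈ Q) : Typ a b c Q (b * (c * q))
  | t7 (q : A) (h : q ∈ Q) : Typ a b c Q (a * (b * (c * q)))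

/-- the module `S` -/
def SS (a b c : A) (Q : AddSubgroup A) : AddSubgroup A := AddSubgroup.closure {y | Typ a b c Q y}

section
variable {a b c : A} {Q : AddSubgroup A} {q : A}

theorem s0 (h : q ∈ Q) : q ∈ SS a b c Q := AddSubgroup.subset_closure (Typ.t0 q h)
theorem s1 (h : q ∈ Q) : a * q ∈ SS a b c Q := AddSubgroup.subset_closure (Typ.t1 q h)
theorem s2 (h : q ∈ Q) : b * q ∈ SS a b c Q := AddSubgroup.subset_closure (Typ.t2 q h)
theorem s3 (h : q ∈ Q) : a * (b * q) ∈ SS a b c Q := AddSubgroup.subset_closure (Typ.t3 q h)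
theorem s4 (h : q ∈ Q) : c * q ∈ SS a b c Q := AddSubgroup.subset_closure (Typ.t4 q h)
theorem s5 (h : q ∈ Q) : a * (c * q) ∈ SS a b c Q := AddSubgroup.subset_closure (Typ.t5 q h)
theorem s6 (h : q ∈ Q) : b * (c * q) ∈ SS a b c Q := AddSubgroup.subset_closure (Typ.t6 q h)
theorem s7 (h : q ∈ Q) : a * (b * (c * q)) ∈ SS a b c Q :=
  AddSubgroup.subset_closure (Typ.t7 q h)

/-- induction principle -/
theorem SS_ind {g : A → A} (g0 : g 0 = 0) (ga : ∀ x y, g (x + y) = g x + g y)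
    (gn : ∀ x, g (-x) = - g x) {T : AddSubgroup A}
    (h : ∀ y, Typ a b c Q y → g y ∈ T) {y : A} (hy : y ∈ SS a b c Q) : g y ∈ T := by
  induction hy using AddSubgroup.closure_induction with
  | mem y hy => exact h y hy
  | zero => rw [g0]; exact zero_mem _
  | add y z _ _ h1 h2 => rw [ga]; exact add_mem h1 h2
  | neg y _ h1 => rw [gn]; exact neg_mem h1

variable (hS : Stab a b c Q)
include hS

theorem Stab.kill (h : q ∈ Q) : Kill (Lc a b c) q := GI.kill (hS.le h)
theorem Stab.G1 (h : q ∈ Q) : G (Lc a b c) 1 q := hS.le h 1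

/-- `k (u q) = (u q) k` -/
theorem Stab.ua (h : q ∈ Q) : a * (as a b c * q) = (as a b c * q) * a := by
  have := (hS.G1 h).comm_k (mem_Lc2 a b c) (mem_Lc3 a b c) (mem_Lc1 a b c)
  rwa [← as_cyc a b c] at this
theorem Stab.ub (h : q ∈ Q) : b * (as a b c * q) = (as a b c * q) * b := by
  have := (hS.G1 h).comm_k (mem_Lc3 a b c) (mem_Lc1 a b c) (mem_Lc2 a b c)
  rwa [as_cyc c a b] at this
theorem Stab.uc (h : q ∈ Q) : c * (as a b c * q) = (as a b c * q) * c :=
  (hS.G1 h).comm_k (mem_Lc1 a b c) (mem_Lc2 a b c) (mem_Lc3 a b c)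

theorem Stab.La {y : A} (hy : y ∈ SS a b c Q) : a * y ∈ SS a b c Q := by
  have ha := mem_Lc1 a b c
  have hb := mem_Lc2 a b c
  have hc := mem_Lc3 a b c
  apply SS_ind (g := fun y => a * y) (mul_zero a) (mul_add a) (mul_neg a) _ hy
  intro y hy
  cases hy with
  | t0 q h => exact s1 h
  | t1 _ h =>
    rename_i q
    show a * (a * q) ∈ _
    rw [gg]
    exact sub_mem (s1 (hS.Va _ h)) (s0 (hS.Na _ h))
  | t2 _ h => exact s3 h
  | t3 _ h =>
    rename_i q
    show a * (a * (b * q)) ∈ _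
    have k := hS.kill h
    rw [gg, k.V_l ha hb, k.N_l ha hb]
    exact sub_mem (s3 (hS.Va _ h)) (s2 (hS.Na _ h))
  | t4 _ h => exact s5 h
  | t5 _ h =>
    rename_i q
    show a * (a * (c * q)) ∈ _
    have k := hS.kill h
    rw [gg, k.V_l ha hc, k.N_l ha hc]
    exact sub_mem (s5 (hS.Va _ h)) (s4 (hS.Na _ h))
  | t6 _ h => exact s7 h
  | t7 _ h =>
    rename_i q
    show a * (a * (b * (c * q))) ∈ _
    have k := hS.kill h
    have k1 := hS.G1 h
    have e1 : P a b (c * q) = as a b c * q := by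
      rw [k1.P_mul_left ha hb hc, k1.comm_u ha hb hc]
    rw [gg, V_mul_left, N_mul_left, e1, k.V_l ha hc, k.N_l ha hc, mul_add, hS.ua h]
    have : a * (b * (c * V a q)) + as a b c * q * a - (b * (c * N a q) + as a b c * q * a) =
      a * (b * (c * V a q)) - b * (c * N a q) := by abel
    rw [this]
    exact sub_mem (s7 (hS.Va _ h)) (s6 (hS.Na _ h))

theorem Stab.Lb {y : A} (hy : y ∈ SS a b c Q) : b * y ∈ SS a b c Q := by
  have ha := mem_Lc1 a b c
  have hb := mem_Lc2 a b c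
  have hc := mem_Lc3 a b c
  apply SS_ind (g := fun y => b * y) (mul_zero b) (mul_add b) (mul_neg b) _ hy
  intro y hy
  cases hy with
  | t0 q h => exact s2 h
  | t1 _ h =>
    rename_i q
    show b * (a * q) ∈ _
    rw [hg a b]
    exact sub_mem (sub_mem (add_mem (s1 (hS.Vb _ h)) (s2 (hS.Va _ h))) (s0 (hS.Bab _ h))) (s3 h)
  | t2 _ h =>
    rename_i q
    show b * (b * q) ∈ _
    rw [gg]
    exact sub_mem (s2 (hS.Vb _ h)) (s0 (hS.Nb _ h))
  | t3 _ h =>
    rename_i q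
    show b * (a * (b * q)) ∈ _
    have k := hS.kill h
    rw [hgh a b q 0 (k b hb a ha).1 (by simp), gg]
    exact add_mem (sub_mem (sub_mem (s2 (hS.Vb _ (hS.Va _ h))) (s0 (hS.Nb _ (hS.Va _ h))))
      (s2 (hS.Bab _ h))) (s1 (hS.Nb _ h))
  | t4 _ h => exact s6 h
  | t5 _ h =>
    rename_i q
    show b * (a * (c * q)) ∈ _
    have k := hS.kill h
    rw [hg a b, k.V_l hb hc, k.V_l ha hc, k.B_l ha hc hb]
    exact sub_mem (sub_mem (add_mem (s5 (hS.Vb _ h)) (s6 (hS.Va _ h))) (s4 (hS.Bab _ h))) (s7 h)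
  | t6 _ h =>
    rename_i q
    show b * (b * (c * q)) ∈ _
    have k := hS.kill h
    rw [gg, k.V_l hb hc, k.N_l hb hc]
    exact sub_mem (s6 (hS.Vb _ h)) (s4 (hS.Nb _ h))
  | t7 _ h =>
    rename_i q
    show b * (a * (b * (c * q))) ∈ _
    have k := hS.kill h
    have k1 := hS.G1 h
    have kV := hS.kill (hS.Va _ h)
    have e1 : P b a (c * q) = - (as a b c * q) := by
      rw [k1.P_mul_left hb ha hc, k1.comm_u hb ha hc, as_swap12 b a c, neg_mul]
    rw [hgh a b (c * q) _ e1 (by rw [mul_neg, neg_mul, hS.ub h]), k.V_l ha hc, k.B_l ha hc hb,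
      k.N_l hb hc, gg, kV.V_l hb hc, kV.N_l hb hc]
    exact add_mem (sub_mem (sub_mem (s6 (hS.Vb _ (hS.Va _ h))) (s4 (hS.Nb _ (hS.Va _ h))))
      (s6 (hS.Bab _ h))) (s5 (hS.Nb _ h))

theorem Stab.ca (h : q ∈ Q) : c * (a * q) ∈ SS a b c Q := by
  rw [hg a c, B_comm]
  exact sub_mem (sub_mem (add_mem (s1 (hS.Vc _ h)) (s4 (hS.Va _ h))) (s0 (hS.Bca _ h))) (s5 h)

theorem Stab.cb (h : q ∈ Q) : c * (b * q) ∈ SS a b c Q := by
  rw [hg b c]
  exact sub_mem (sub_mem (add_mem (s2 (hS.Vc _ h)) (s4 (hS.Vb _ h))) (s0 (hS.Bbc _ h))) (s6 h)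

theorem Stab.cbc (h : q ∈ Q) : c * (b * (c * q)) ∈ SS a b c Q := by
  have hb := mem_Lc2 a b c
  have hc := mem_Lc3 a b c
  have k := hS.kill h
  rw [hgh b c q 0 (k c hc b hb).1 (by simp), gg]
  exact add_mem (sub_mem (sub_mem (s4 (hS.Vc _ (hS.Vb _ h))) (s0 (hS.Nc _ (hS.Vb _ h))))
    (s4 (hS.Bbc _ h))) (s2 (hS.Nc _ h))

theorem Stab.Lc {y : A} (hy : y ∈ SS a b c Q) : c * y ∈ SS a b c Q := by
  have ha := mem_Lc1 a b c
  have hb := mem_Lc2 a b c
  have hc := mem_Lc3 a b c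
  apply SS_ind (g := fun y => c * y) (mul_zero c) (mul_add c) (mul_neg c) _ hy
  intro y hy
  cases hy with
  | t0 q h => exact s4 h
  | t1 _ h => exact hS.ca h
  | t2 _ h => exact hS.cb h
  | t3 _ h =>
    rename_i q
    show c * (a * (b * q)) ∈ _
    have k := hS.kill h
    rw [hg a c, k.V_l hc hb, k.V_l ha hb, k.B_l ha hb hc, B_comm a c]
    exact sub_mem (sub_mem (add_mem (s3 (hS.Vc _ h)) (hS.cb (hS.Va _ h))) (s2 (hS.Bca _ h)))
      (hS.La (hS.cb h))
  | t4 _ h =>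
    rename_i q
    show c * (c * q) ∈ _
    rw [gg]
    exact sub_mem (s4 (hS.Vc _ h)) (s0 (hS.Nc _ h))
  | t5 _ h =>
    rename_i q
    show c * (a * (c * q)) ∈ _
    have k := hS.kill h
    rw [hgh a c q 0 (k c hc a ha).1 (by simp), gg, B_comm a c]
    exact add_mem (sub_mem (sub_mem (s4 (hS.Vc _ (hS.Va _ h))) (s0 (hS.Nc _ (hS.Va _ h))))
      (s4 (hS.Bca _ h))) (s1 (hS.Nc _ h))
  | t6 _ h => exact hS.cbc h
  | t7 _ h =>
    rename_i q
    show c * (a * (b * (c * q))) ∈ _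
    have k := hS.kill h
    have k1 := hS.G1 h
    have e1 : V c (b * (c * q)) = b * (c * V c q) := by
      rw [V_mul_left, k.V_l hc hc, k1.P_mul_left hc hb hc, as_self13, mul_zero, add_zero]
    have e2 : V a (b * (c * q)) = b * (c * V a q) + as a b c * q := by
      rw [V_mul_left, k.V_l ha hc, k1.P_mul_left ha hb hc, k1.comm_u ha hb hc]
    have e3 : ∀ g ∈ AltRing.Lc a b c, N g (b * (c * q)) = b * (c * N g q) + (as g b c * q) * g := by
      intro g hg
      rw [N_mul_left, k.N_l hg hc, k1.P_mul_left hg hb hc, k1.comm_u hg hb hc]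
    have e4 : B a c (b * (c * q)) = b * (c * B a c q) + (as a b c * q) * c := by
      rw [B_eq, B_eq, e3 _ (add_mem ha hc), e3 _ ha, e3 _ hc, as_add1, as_self13]
      simp only [mul_sub, mul_add, add_mul, add_zero, zero_mul]
      abel
    have e5 : c * (a * (b * (c * q))) =
        a * (b * (c * V c q)) + c * (b * (c * V a q)) - b * (c * B c a q)
          - a * (c * (b * (c * q))) := by
      rw [hg a c, e1, e2, e4, mul_add, hS.uc h, B_comm a c]
      abel
    rw [e5]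
    exact sub_mem (sub_mem (add_mem (s7 (hS.Vc _ h)) (hS.cbc (hS.Va _ h)))
      (s6 (hS.Bca _ h))) (hS.La (hS.cbc h))

/-- `u q ∈ S` -/
theorem Stab.u (h : q ∈ Q) : as a b c * q ∈ SS a b c Q := by
  have ha := mem_Lc1 a b c
  have hb := mem_Lc2 a b c
  have hc := mem_Lc3 a b c
  have k := hS.kill h
  have k1 := hS.G1 h
  have e1 : (a * b) * q = b * (a * q) := by
    have := (k b hb a ha).1
    exact (sub_eq_zero.mp this).symm
  have e2 : (a * b) * (q * c) = b * (a * (q * c)) - as a b c * q := by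
    have := k.P_mul_right hb ha hc
    rw [as_swap12 b a c, mul_neg, neg_neg, k1.comm_u ha hb hc] at this
    simp only [P] at this
    rw [← this]
    abel
  have e3 : a * (q * c) = a * V c q - a * (c * q) := by
    simp only [V, mul_add]; abel
  have e4 := V_ab (k a ha b hb).2
  have e5 : c * (q * (a * b)) = c * V (a * b) q - c * (b * (a * q)) := by
    rw [← e1]; simp only [V, mul_add]; abel
  have e6 : as a b c * q = - AltRing.Th a b c q + b * (a * V c q) - b * (a * (c * q))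
      + c * V a (V b q) - c * B a b q - c * (b * (a * q)) := by
    simp only [AltRing.Th]
    rw [B, e5, e4, e2, e3, mul_sub, mul_sub]
    abel
  rw [e6]
  refine sub_mem (sub_mem (add_mem (sub_mem (add_mem (neg_mem (s0 (hS.Th _ h))) ?_) ?_) ?_) ?_) ?_
  · exact hS.Lb (s1 (hS.Vc _ h))
  · exact hS.Lb (s5 h)
  · exact s4 (hS.Va _ (hS.Vb _ h))
  · exact s4 (hS.Bab _ h)
  · exact hS.Lc (hS.Lb (s1 h))

theorem Stab.P1 (h : q ∈ Q) : P a b (b * (c * q)) = as a b c * V b q - b * (as a b c * q) := by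
  have ha := mem_Lc1 a b c
  have hb := mem_Lc2 a b c
  have hc := mem_Lc3 a b c
  have k := hS.kill h
  have k1 := hS.G1 h
  have e1 : P a b (V b (c * q)) = P a b (b * (c * q)) + P a b ((c * q) * b) := P_add _ _ _ _
  have e2 : P a b (V b (c * q)) = as a b c * V b q := by
    rw [k.V_l hb hc, (hS.G1 (hS.Vb _ h)).P_mul_left ha hb hc,
      (hS.G1 (hS.Vb _ h)).comm_u ha hb hc]
  have e3 : P a b ((c * q) * b) = b * (as a b c * q) := by
    rw [P_mul_right, as_self23, mul_zero, sub_zero, k1.P_mul_left ha hb hc,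
      k1.comm_u ha hb hc, hS.ub h]
  rw [e2, e3] at e1
  rw [e1]; abel

theorem Stab.P2 (h : q ∈ Q) : P c a (b * (c * q)) = c * (as a b c * q) := by
  have ha := mem_Lc1 a b c
  have hb := mem_Lc2 a b c
  have hc := mem_Lc3 a b c
  have k := hS.kill h
  have k1 := hS.G1 h
  have e1 : P c a (V b (c * q)) = P c a (b * (c * q)) + P c a ((c * q) * b) := P_add _ _ _ _
  have e2 : P c a (V b (c * q)) = 0 := by
    rw [k.V_l hb hc, (hS.G1 (hS.Vb _ h)).P_mul_left hc ha hc, as_self13, mul_zero]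
  have e3 : P c a ((c * q) * b) = - ((c * q) * as a b c) := by
    rw [P_mul_right, k1.P_mul_left hc ha hc, as_self13, mul_zero, zero_mul, zero_sub,
      as_cyc c a b]
  have e4 : P a b ((c * q) * c) = (as a b c * q) * c - (c * q) * as a b c := by
    rw [P_mul_right, k1.P_mul_left ha hb hc, k1.comm_u ha hb hc]
  have e5 : P a b ((c * q) * c) = 0 := by
    rw [flex]
    exact k1.P_N ha hb hc
  rw [e2, e3] at e1
  rw [e5, ← hS.uc h] at e4
  linear_combination (norm := abel) - e1 + e4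

theorem Stab.VaS {y : A} (hy : y ∈ SS a b c Q) : V a y ∈ SS a b c Q := by
  have ha := mem_Lc1 a b c
  have hb := mem_Lc2 a b c
  have hc := mem_Lc3 a b c
  apply SS_ind (g := fun y => V a y) (V_zero a) (V_add a) (V_neg a) _ hy
  intro y hy
  cases hy with
  | t0 q h => exact s0 (hS.Va _ h)
  | t1 _ h =>
    rename_i q
    show V a (a * q) ∈ _
    rw [(hS.kill h).V_l ha ha]
    exact s1 (hS.Va _ h)
  | t2 _ h =>
    rename_i q
    show V a (b * q) ∈ _
    rw [(hS.kill h).V_l ha hb]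
    exact s2 (hS.Va _ h)
  | t3 _ h =>
    rename_i q
    show V a (a * (b * q)) ∈ _
    rw [V_mul_left, P_self, add_zero, (hS.kill h).V_l ha hb]
    exact s3 (hS.Va _ h)
  | t4 _ h =>
    rename_i q
    show V a (c * q) ∈ _
    rw [(hS.kill h).V_l ha hc]
    exact s4 (hS.Va _ h)
  | t5 _ h =>
    rename_i q
    show V a (a * (c * q)) ∈ _
    rw [V_mul_left, P_self, add_zero, (hS.kill h).V_l ha hc]
    exact s5 (hS.Va _ h)
  | t6 _ h =>
    rename_i q
    show V a (b * (c * q)) ∈ _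
    rw [V_mul_left, (hS.kill h).V_l ha hc, (hS.G1 h).P_mul_left ha hb hc,
      (hS.G1 h).comm_u ha hb hc]
    exact add_mem (s6 (hS.Va _ h)) (hS.u h)
  | t7 _ h =>
    rename_i q
    show V a (a * (b * (c * q))) ∈ _
    rw [V_mul_left, P_self, add_zero, V_mul_left, (hS.kill h).V_l ha hc,
      (hS.G1 h).P_mul_left ha hb hc, (hS.G1 h).comm_u ha hb hc, mul_add]
    exact add_mem (s7 (hS.Va _ h)) (hS.La (hS.u h))

theorem Stab.VbS {y : A} (hy : y ∈ SS a b c Q) : V b y ∈ SS a b c Q := by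
  have ha := mem_Lc1 a b c
  have hb := mem_Lc2 a b c
  have hc := mem_Lc3 a b c
  apply SS_ind (g := fun y => V b y) (V_zero b) (V_add b) (V_neg b) _ hy
  intro y hy
  cases hy with
  | t0 q h => exact s0 (hS.Vb _ h)
  | t1 _ h =>
    rename_i q
    show V b (a * q) ∈ _
    rw [(hS.kill h).V_l hb ha]
    exact s1 (hS.Vb _ h)
  | t2 _ h =>
    rename_i q
    show V b (b * q) ∈ _
    rw [(hS.kill h).V_l hb hb]
    exact s2 (hS.Vb _ h)
  | t3 _ h =>
    rename_i q
    show V b (a * (b * q)) ∈ _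
    rw [V_mul_left, (hS.kill h).V_l hb hb, (hS.G1 h).P_mul_left hb ha hb, as_self13, mul_zero,
      add_zero]
    exact s3 (hS.Vb _ h)
  | t4 _ h =>
    rename_i q
    show V b (c * q) ∈ _
    rw [(hS.kill h).V_l hb hc]
    exact s4 (hS.Vb _ h)
  | t5 _ h =>
    rename_i q
    show V b (a * (c * q)) ∈ _
    rw [V_mul_left, (hS.kill h).V_l hb hc, (hS.G1 h).P_mul_left hb ha hc,
      (hS.G1 h).comm_u hb ha hc, as_swap12 b a c, neg_mul]
    exact add_mem (s5 (hS.Vb _ h)) (neg_mem (hS.u h))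
  | t6 _ h =>
    rename_i q
    show V b (b * (c * q)) ∈ _
    rw [V_mul_left, P_self, add_zero, (hS.kill h).V_l hb hc]
    exact s6 (hS.Vb _ h)
  | t7 _ h =>
    rename_i q
    show V b (a * (b * (c * q))) ∈ _
    rw [V_mul_left, V_mul_left, (hS.kill h).V_l hb hc, P_self, add_zero, P_swap, hS.P1 h]
    exact add_mem (s7 (hS.Vb _ h)) (neg_mem (sub_mem (hS.u (hS.Vb _ h)) (hS.Lb (hS.u h))))

theorem Stab.VcS {y : A} (hy : y ∈ SS a b c Q) : V c y ∈ SS a b c Q := by
  have ha := mem_Lc1 a b c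
  have hb := mem_Lc2 a b c
  have hc := mem_Lc3 a b c
  apply SS_ind (g := fun y => V c y) (V_zero c) (V_add c) (V_neg c) _ hy
  intro y hy
  cases hy with
  | t0 q h => exact s0 (hS.Vc _ h)
  | t1 _ h =>
    rename_i q
    show V c (a * q) ∈ _
    rw [(hS.kill h).V_l hc ha]
    exact s1 (hS.Vc _ h)
  | t2 _ h =>
    rename_i q
    show V c (b * q) ∈ _
    rw [(hS.kill h).V_l hc hb]
    exact s2 (hS.Vc _ h)
  | t3 _ h =>
    rename_i q
    show V c (a * (b * q)) ∈ _
    rw [V_mul_left, (hS.kill h).V_l hc hb, (hS.G1 h).P_mul_left hc ha hb,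
      (hS.G1 h).comm_u hc ha hb, as_cyc c a b]
    exact add_mem (s3 (hS.Vc _ h)) (hS.u h)
  | t4 _ h =>
    rename_i q
    show V c (c * q) ∈ _
    rw [(hS.kill h).V_l hc hc]
    exact s4 (hS.Vc _ h)
  | t5 _ h =>
    rename_i q
    show V c (a * (c * q)) ∈ _
    rw [V_mul_left, (hS.kill h).V_l hc hc, (hS.G1 h).P_mul_left hc ha hc, as_self13, mul_zero,
      add_zero]
    exact s5 (hS.Vc _ h)
  | t6 _ h =>
    rename_i q
    show V c (b * (c * q)) ∈ _
    rw [V_mul_left, (hS.kill h).V_l hc hc, (hS.G1 h).P_mul_left hc hb hc, as_self13, mul_zero,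
      add_zero]
    exact s6 (hS.Vc _ h)
  | t7 _ h =>
    rename_i q
    show V c (a * (b * (c * q))) ∈ _
    rw [V_mul_left, V_mul_left, (hS.kill h).V_l hc hc, (hS.G1 h).P_mul_left hc hb hc, as_self13,
      mul_zero, add_zero, hS.P2 h]
    exact add_mem (s7 (hS.Vc _ h)) (hS.Lc (hS.u h))

theorem Stab.Ra {y : A} (hy : y ∈ SS a b c Q) : y * a ∈ SS a b c Q := by
  have : y * a = V a y - a * y := by simp only [V]; abel
  rw [this]
  exact sub_mem (hS.VaS hy) (hS.La hy)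
theorem Stab.Rb {y : A} (hy : y ∈ SS a b c Q) : y * b ∈ SS a b c Q := by
  have : y * b = V b y - b * y := by simp only [V]; abel
  rw [this]
  exact sub_mem (hS.VbS hy) (hS.Lb hy)
theorem Stab.Rc {y : A} (hy : y ∈ SS a b c Q) : y * c ∈ SS a b c Q := by
  have : y * c = V c y - c * y := by simp only [V]; abel
  rw [this]
  exact sub_mem (hS.VcS hy) (hS.Lc hy)

end

end Pool.Agent.AltRing
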