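import Pool.Agent.Lib.MP_a8cdcd_al.Closure

/-!
# Evaluating polynomials in the ten commuting operators
-/

set_option autoImplicit false
set_option linter.unusedSimpArgs false
set_option linter.unusedVariables false
set_option linter.unusedSectionVars false

namespace Pool.Agent.AltRing

variable {A : Type*} [NonUnitalNonAssocRing A]

/-- the ten operators -/
def W (a b c : A) : Fin 10 → A → A :=
  ![V a, V b, V c, N a, N b, N c, B a b, B b c, B c a, Th a b c]

theorem W_add (a b c : A) (i : Fin 10) (x y : A) :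
    W a b c i (x + y) = W a b c i x + W a b c i y := by
  fin_cases i
  · exact V_add _ _ _
  · exact V_add _ _ _
  · exact V_add _ _ _
  · exact N_add _ _ _
  · exact N_add _ _ _
  · exact N_add _ _ _
  · exact B_add _ _ _ _
  · exact B_add _ _ _ _
  · exact B_add _ _ _ _
  · exact B_add _ _ _ _

variable [IsAlt A]

/-- the operators `V`, `N`, `B` with entries in `L` -/
inductive Op (L : AddSubgroup A) : (A → A) → Prop
  | V (g : A) (hg : g ∈ L) : Op L (V g)
  | N (g : A) (hg : g ∈ L) : Op L (N g)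
  | B (g h : A) (hg : g ∈ L) (hh : h ∈ L) : Op L (B g h)

theorem Op.comm {L : AddSubgroup A} {F G : A → A} (hF : Op L F) (hG : Op L G) {x : A}
    (hx : Kill L x) : F (G x) = G (F x) := by
  cases hF with
  | V g hg =>
    cases hG with
    | V h hh => exact hx.V_V hg hh
    | N h hh => exact hx.V_N hg hh
    | B h k hh hk => exact hx.V_B hg hh hk
  | N g hg =>
    cases hG with
    | V h hh => exact (hx.V_N hh hg).symm
    | N h hh => exact hx.N_N hg hh
    | B h k hh hk => exact hx.N_B hg hh hk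
  | B g g' hg hg' =>
    cases hG with
    | V h hh => exact (hx.V_B hh hg hg').symm
    | N h hh => exact (hx.N_B hh hg hg').symm
    | B h k hh hk => exact hx.B_B hg hg' hh hk

section
variable (a b c : A)

theorem W_Op (i : Fin 9) : Op (Lc a b c) (W a b c i.castSucc) := by
  have ha := mem_Lc1 a b c
  have hb := mem_Lc2 a b c
  have hc := mem_Lc3 a b c
  fin_cases i
  · exact Op.V a ha
  · exact Op.V b hb
  · exact Op.V c hc
  · exact Op.N a ha
  · exact Op.N b hb
  · exact Op.N c hc
  · exact Op.B a b ha hb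
  · exact Op.B b c hb hc
  · exact Op.B c a hc ha

theorem W_Th (i : Fin 9) {x : A} (hx : x ∈ GI (Lc a b c)) :
    W a b c i.castSucc (Th a b c x) = Th a b c (W a b c i.castSucc x) := by
  fin_cases i
  · exact Va_Th hx
  · exact Vb_Th hx
  · exact Vc_Th hx
  · exact Na_Th hx
  · exact Nb_Th hx
  · exact Nc_Th hx
  · exact Bab_Th hx
  · exact Bbc_Th hx
  · exact Bca_Th hx

theorem W_comm (i j : Fin 10) {x : A} (hx : x ∈ GI (Lc a b c)) :
    W a b c i (W a b c j x) = W a b c j (W a b c i x) := by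
  induction i using Fin.lastCases with
  | last =>
    induction j using Fin.lastCases with
    | last => rfl
    | cast j => exact (W_Th a b c j hx).symm
  | cast i =>
    induction j using Fin.lastCases with
    | last => exact W_Th a b c i hx
    | cast j => exact (W_Op a b c i).comm (W_Op a b c j) (GI.kill hx)

theorem W_mem (i : Fin 10) {x : A} (hx : x ∈ GI (Lc a b c)) : W a b c i x ∈ GI (Lc a b c) := by
  have ha := mem_Lc1 a b c
  have hb := mem_Lc2 a b c
  have hc := mem_Lc3 a b c
  fin_cases i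
  · exact GI.V hx ha
  · exact GI.V hx hb
  · exact GI.V hx hc
  · exact GI.N hx ha
  · exact GI.N hx hb
  · exact GI.N hx hc
  · exact GI.B hx ha hb
  · exact GI.B hx hb hc
  · exact GI.B hx hc ha
  · exact Th_mem hx

/-- the operators as endomorphisms of `GI` -/
def WE (i : Fin 10) : Module.End ℤ (GI (Lc a b c)) :=
  AddMonoidHom.toIntLinearMap
    (AddMonoidHom.mk' (fun x => ⟨W a b c i x, W_mem a b c i x.2⟩) (by
      intro x y
      apply Subtype.ext
      exact W_add a b c i x y))

theorem WE_coe (i : Fin 10) (x : GI (Lc a b c)) : ((WE a b c i x : GI (Lc a b c)) : A) =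
    W a b c i x := rfl

theorem WE_comm (i j : Fin 10) : WE a b c i * WE a b c j = WE a b c j * WE a b c i := by
  ext x
  exact W_comm a b c i j x.2

/-- evaluation of polynomials at commuting endomorphisms -/
noncomputable def evHom {M : Type*} [AddCommGroup M] (w : Fin 10 → Module.End ℤ M)
    (hw : ∀ i j, w i * w j = w j * w i) : MvPolynomial (Fin 10) ℤ →+* Module.End ℤ M :=
  letI := Algebra.adjoinCommRingOfComm ℤ (s := Set.range w)
    (by rintro _ ⟨i, rfl⟩ _ ⟨j, rfl⟩; exact hw i j)
  (Subalgebra.val (Algebra.adjoin ℤ (Set.range w))).toRingHom.comp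
    (MvPolynomial.eval₂Hom (Int.castRingHom _)
      (fun i => (⟨w i, Algebra.subset_adjoin ⟨i, rfl⟩⟩ : Algebra.adjoin ℤ (Set.range w))))

theorem evHom_X {M : Type*} [AddCommGroup M] (w : Fin 10 → Module.End ℤ M)
    (hw : ∀ i j, w i * w j = w j * w i) (i : Fin 10) :
    evHom w hw (MvPolynomial.X i) = w i := by
  simp [evHom]

/-- evaluation at the associator -/
noncomputable def ev (P : MvPolynomial (Fin 10) ℤ) : A :=
  ((evHom (WE a b c) (WE_comm a b c) P) ⟨as a b c, u_mem a b c⟩ : GI (Lc a b c))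

theorem ev_add (P R : MvPolynomial (Fin 10) ℤ) : ev a b c (P + R) = ev a b c P + ev a b c R := by
  simp [ev]
theorem ev_zero : ev a b c 0 = 0 := by
  simp [ev]
theorem ev_neg (P : MvPolynomial (Fin 10) ℤ) : ev a b c (-P) = - ev a b c P := by
  simp [ev]
theorem ev_one : ev a b c 1 = as a b c := by
  simp [ev]
theorem ev_C (z : ℤ) : ev a b c (MvPolynomial.C z) = z • as a b c := by
  have : (MvPolynomial.C z : MvPolynomial (Fin 10) ℤ) = z • 1 := by
    rw [MvPolynomial.smul_eq_C_mul, mul_one]
  simp [ev, this]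
theorem ev_X_mul (i : Fin 10) (P : MvPolynomial (Fin 10) ℤ) :
    ev a b c (MvPolynomial.X i * P) = W a b c i (ev a b c P) := by
  simp only [ev, map_mul, evHom_X]
  rfl

/-- the module `Q` -/
noncomputable def QQ : AddSubgroup A where
  carrier := {q | ∃ P, q = ev a b c P}
  add_mem' := by
    rintro _ _ ⟨P, rfl⟩ ⟨R, rfl⟩
    exact ⟨P + R, (ev_add a b c P R).symm⟩
  zero_mem' := ⟨0, (ev_zero a b c).symm⟩
  neg_mem' := by
    rintro _ ⟨P, rfl⟩
    exact ⟨-P, (ev_neg a b c P).symm⟩

theorem QQ_W (i : Fin 10) {q : A} (hq : q ∈ QQ a b c) : W a b c i q ∈ QQ a b c := by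
  obtain ⟨P, rfl⟩ := hq
  exact ⟨MvPolynomial.X i * P, (ev_X_mul a b c i P).symm⟩

theorem u_mem_QQ : as a b c ∈ QQ a b c := ⟨1, (ev_one a b c).symm⟩

theorem QQ_stab : Stab a b c (QQ a b c) where
  le := by
    rintro _ ⟨P, rfl⟩
    exact SetLike.coe_mem _
  Va _ hx := QQ_W a b c 0 hx
  Vb _ hx := QQ_W a b c 1 hx
  Vc _ hx := QQ_W a b c 2 hx
  Na _ hx := QQ_W a b c 3 hx
  Nb _ hx := QQ_W a b c 4 hx
  Nc _ hx := QQ_W a b c 5 hx
  Bab _ hx := QQ_W a b c 6 hx
  Bbc _ hx := QQ_W a b c 7 hx
  Bca _ hx := QQ_W a b c 8 hx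
  Th _ hx := QQ_W a b c 9 hx

end

end Pool.Agent.AltRing
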