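import Pool.Agent.Lib.MP_a8cdcd_al.Main

/-!
# The free alternative ring as a quotient of the free magma ring
-/

set_option autoImplicit false
set_option linter.unusedSimpArgs false
set_option linter.unusedVariables false

namespace Pool.Agent.AltRing

/-- the free nonassociative ring on three generators -/
abbrev M3 : Type := MonoidAlgebra ℤ (FreeMagma (Fin 3))

/-- the alternative laws hold modulo `K` -/
def Laws (K : TwoSidedIdeal M3) : Prop :=
  ∀ a b : M3, (a * a) * b - a * (a * b) ∈ K ∧ (b * a) * a - b * (a * a) ∈ K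

/-- the ideal of the alternative laws -/
noncomputable def K0 : TwoSidedIdeal M3 :=
  TwoSidedIdeal.mk' {x | ∀ K, Laws K → x ∈ K} (fun K _ => K.zero_mem)
    (fun h1 h2 K hK => K.add_mem (h1 K hK) (h2 K hK)) (fun h K hK => K.neg_mem (h K hK))
    (fun h K hK => K.mul_mem_left _ _ (h K hK)) (fun h K hK => K.mul_mem_right _ _ (h K hK))

theorem mem_K0 (x : M3) : x ∈ K0 ↔ ∀ K, Laws K → x ∈ K :=
  TwoSidedIdeal.mem_mk' _ _ _ _ _ _ _

theorem laws_K0 : Laws K0 := by
  intro a b
  rw [mem_K0, mem_K0]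
  exact ⟨fun K hK => (hK a b).1, fun K hK => (hK a b).2⟩

/-- the free alternative ring -/
abbrev FA : Type := K0.ringCon.Quotient

/-- projection -/
noncomputable def pr (x : M3) : FA := (x : K0.ringCon.Quotient)

theorem pr_add (x y : M3) : pr (x + y) = pr x + pr y := rfl
theorem pr_mul (x y : M3) : pr (x * y) = pr x * pr y := rfl
theorem pr_neg (x : M3) : pr (-x) = - pr x := rfl
theorem pr_zero : pr 0 = 0 := rfl
theorem pr_eq (x y : M3) : pr x = pr y ↔ x - y ∈ K0 := by
  rw [pr, pr, RingCon.eq, TwoSidedIdeal.rel_iff]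
theorem pr_eq_zero (x : M3) : pr x = 0 ↔ x ∈ K0 := by
  rw [← pr_zero, pr_eq, sub_zero]
theorem pr_surj (x : FA) : ∃ y, pr y = x := by
  induction x using Quotient.inductionOn with | _ x => exact ⟨x, rfl⟩

instance instFA : IsAlt FA where
  left a b := by
    obtain ⟨a, rfl⟩ := pr_surj a
    obtain ⟨b, rfl⟩ := pr_surj b
    rw [← pr_mul, ← pr_mul, ← pr_mul, ← pr_mul, pr_eq]
    exact (laws_K0 a b).1
  right a b := by
    obtain ⟨a, rfl⟩ := pr_surj a
    obtain ⟨b, rfl⟩ := pr_surj b
    rw [← pr_mul, ← pr_mul, ← pr_mul, ← pr_mul, pr_eq]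
    exact (laws_K0 a b).2

/-- generators -/
noncomputable def gn (i : Fin 3) : FA := pr (MonoidAlgebra.single (FreeMagma.of i) 1)

theorem gen_FA : Gen (gn 0) (gn 1) (gn 2) := by
  intro p h0 h1 h2 hz ha hn hm
  have hi : ∀ i, p (gn i) := by
    intro i
    fin_cases i
    · exact h0
    · exact h1
    · exact h2
  have hs : ∀ s : FreeMagma (Fin 3), p (pr (MonoidAlgebra.single s 1)) := by
    intro s
    induction s with
    | ih1 i => exact hi i
    | ih2 x y hx hy =>
      have : (MonoidAlgebra.single (x * y) 1 : M3) =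
          MonoidAlgebra.single x 1 * MonoidAlgebra.single y 1 := by
        rw [MonoidAlgebra.single_mul_single, mul_one]
      rw [this, pr_mul]
      exact hm _ _ hx hy
  have hsn : ∀ (s : FreeMagma (Fin 3)) (n : ℕ), p (pr (MonoidAlgebra.single s (n : ℤ))) := by
    intro s n
    induction n with
    | zero =>
      rw [Nat.cast_zero, MonoidAlgebra.single_zero, pr_zero]
      exact hz
    | succ n ih =>
      rw [Nat.cast_succ, MonoidAlgebra.single_add, pr_add]
      exact ha _ _ ih (hs s)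
  have hsz : ∀ (s : FreeMagma (Fin 3)) (n : ℤ), p (pr (MonoidAlgebra.single s n)) := by
    intro s n
    obtain ⟨k, rfl | rfl⟩ := Int.eq_nat_or_neg n
    · exact hsn s k
    · have : (MonoidAlgebra.single s (-(k : ℤ)) : M3) = - MonoidAlgebra.single s (k : ℤ) := by
        rw [eq_neg_iff_add_eq_zero, ← MonoidAlgebra.single_add]
        simp
      rw [this, pr_neg]
      exact hn _ (hsn s k)
  intro x
  obtain ⟨y, rfl⟩ := pr_surj x
  induction y using MonoidAlgebra.induction_linear with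
  | zero => rw [pr_zero]; exact hz
  | add x y hx hy => rw [pr_add]; exact ha _ _ hx hy
  | single s n => exact hsz s n

theorem free_FA : FreeAlt (gn 0) (gn 1) (gn 2) := by
  intro R _ _ x y z
  let φ0 : M3 →ₙₐ[ℤ] R := MonoidAlgebra.liftMagma ℤ (FreeMagma.lift ![x, y, z])
  have hφ0 : ∀ i, φ0 (MonoidAlgebra.single (FreeMagma.of i) 1) = ![x, y, z] i := by
    intro i
    simp [φ0]
  let I : TwoSidedIdeal M3 :=
    TwoSidedIdeal.mk' {m | φ0 m = 0} (map_zero φ0)
      (fun {a b} h1 h2 => by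
        show φ0 (a + b) = 0
        rw [map_add, show φ0 a = 0 from h1, show φ0 b = 0 from h2, add_zero])
      (fun {a} h => by
        show φ0 (-a) = 0
        rw [map_neg, show φ0 a = 0 from h, neg_zero])
      (fun {a b} h => by
        show φ0 (a * b) = 0
        rw [map_mul, show φ0 b = 0 from h, mul_zero])
      (fun {a b} h => by
        show φ0 (a * b) = 0
        rw [map_mul, show φ0 a = 0 from h, zero_mul])
  have hI : ∀ m, m ∈ I ↔ φ0 m = 0 := fun m => TwoSidedIdeal.mem_mk' _ _ _ _ _ _ _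
  have hL : Laws I := by
    intro a b
    rw [hI, hI, map_sub, map_sub, map_mul, map_mul, map_mul, map_mul, map_mul, map_mul, map_mul,
      map_mul]
    exact ⟨by rw [IsAlt.left, sub_self], by rw [IsAlt.right, sub_self]⟩
  have hK : ∀ m ∈ K0, φ0 m = 0 := fun m hm => (hI m).mp ((mem_K0 m).mp hm I hL)
  let φ1 : FA → R := Quotient.lift (fun m : M3 => φ0 m) (by
    intro a b hab
    have : a - b ∈ K0 := (TwoSidedIdeal.rel_iff K0 a b).mp hab
    have h2 := hK _ this
    rw [map_sub, sub_eq_zero] at h2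
    exact h2)
  have hφ1 : ∀ m, φ1 (pr m) = φ0 m := fun m => rfl
  let φ : FA →ₙ+* R :=
    { toFun := φ1
      map_mul' := by
        intro a b
        obtain ⟨a, rfl⟩ := pr_surj a
        obtain ⟨b, rfl⟩ := pr_surj b
        rw [← pr_mul, hφ1, hφ1, hφ1, map_mul]
      map_zero' := by
        show φ1 (pr 0) = 0
        rw [hφ1, map_zero]
      map_add' := by
        intro a b
        obtain ⟨a, rfl⟩ := pr_surj a
        obtain ⟨b, rfl⟩ := pr_surj b
        rw [← pr_add, hφ1, hφ1, hφ1, map_add] }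
  exact ⟨φ, hφ0 0, hφ0 1, hφ0 2⟩

/-- The main result. -/
theorem main (J : TwoSidedIdeal M3) (hJ : ∀ x ∈ J, ∀ y ∈ J, ∀ K, Laws K → x * y ∈ K) :
    ∀ x ∈ J, ∀ K, Laws K → x ∈ K := by
  intro x hx
  rw [← mem_K0, ← pr_eq_zero]
  apply semiprime gen_FA free_FA {y | ∃ m ∈ J, pr m = y}
  · rintro w _ ⟨m, hm, rfl⟩
    obtain ⟨w, rfl⟩ := pr_surj w
    exact ⟨w * m, J.mul_mem_left _ _ hm, pr_mul _ _⟩
  · rintro _ ⟨m, hm, rfl⟩
    rw [← pr_mul, pr_eq_zero, mem_K0]
    exact hJ m hm m hm
  · exact ⟨x, hx, rfl⟩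

end Pool.Agent.AltRing
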