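import Pool.Agent.Lib.MP_a8cdcd_al.Basic

/-!
# The sets G_n and the operators on them
-/

set_option autoImplicit false
set_option linter.unusedSimpArgs false
set_option linter.unusedVariables false
set_option linter.unusedSectionVars false

namespace Pool.Agent.AltRing

variable {A : Type*} [NonUnitalNonAssocRing A]

/-- `x` is killed by all operators `P g h`, `P' g h` with `g h ∈ L`. -/
def Kill (L : AddSubgroup A) (x : A) : Prop := ∀ g ∈ L, ∀ h ∈ L, P g h x = 0 ∧ P' g h x = 0

/-- The sets `G_n`. -/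
def G (L : AddSubgroup A) : ℕ → A → Prop
  | 0, x => Kill L x
  | n + 1, x => Kill L x ∧ ∀ k ∈ L, G L n (V k x)

variable {L : AddSubgroup A}

theorem Kill.zero : Kill L (0 : A) := fun g _ h _ => ⟨P_zero g h, P'_zero g h⟩
theorem Kill.add {x y : A} (hx : Kill L x) (hy : Kill L y) : Kill L (x + y) := fun g hg h hh => by
  rw [P_add, P'_add, (hx g hg h hh).1, (hx g hg h hh).2, (hy g hg h hh).1, (hy g hg h hh).2]
  simp
theorem Kill.neg {x : A} (hx : Kill L x) : Kill L (-x) := fun g hg h hh => by
  rw [P_neg, P'_neg, (hx g hg h hh).1, (hx g hg h hh).2]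
  simp

theorem G.kill {n : ℕ} {x : A} (hx : G L n x) : Kill L x := by
  cases n with
  | zero => exact hx
  | succ n => exact hx.1

theorem G.zero (n : ℕ) : G L n (0 : A) := by
  induction n with
  | zero => exact Kill.zero
  | succ n ih => exact ⟨Kill.zero, fun k _ => by rw [V_zero]; exact ih⟩

theorem G.add {n : ℕ} : ∀ {x y : A}, G L n x → G L n y → G L n (x + y) := by
  induction n with
  | zero => intro x y hx hy; exact Kill.add hx hy
  | succ n ih =>
    intro x y hx hy
    exact ⟨Kill.add hx.1 hy.1, fun k hk => by rw [V_add]; exact ih (hx.2 k hk) (hy.2 k hk)⟩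

theorem G.neg {n : ℕ} : ∀ {x : A}, G L n x → G L n (-x) := by
  induction n with
  | zero => intro x hx; exact Kill.neg hx
  | succ n ih =>
    intro x hx
    exact ⟨Kill.neg hx.1, fun k hk => by rw [V_neg]; exact ih (hx.2 k hk)⟩

theorem G.sub {n : ℕ} {x y : A} (hx : G L n x) (hy : G L n y) : G L n (x - y) := by
  rw [sub_eq_add_neg]; exact hx.add hy.neg

theorem G.pred {n : ℕ} : ∀ {x : A}, G L (n + 1) x → G L n x := by
  induction n with
  | zero => intro x hx; exact hx.1
  | succ n ih => intro x hx; exact ⟨hx.1, fun k hk => ih (hx.2 k hk)⟩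

theorem G.mono {m n : ℕ} (h : m ≤ n) {x : A} (hx : G L n x) : G L m x := by
  induction n, h using Nat.le_induction with
  | base => exact hx
  | succ n _ ih => exact ih hx.pred

theorem G.V {n : ℕ} {x : A} (hx : G L (n + 1) x) {k : A} (hk : k ∈ L) : G L n (V k x) := hx.2 k hk

variable [IsAlt A]

section KK
variable {g h k x : A} (hg : g ∈ L) (hh : h ∈ L) (hk : k ∈ L)

include hg hh hk

theorem Kill.P_mul_right (hx : Kill L x) : P g h (x * k) = - (x * as g h k) := by
  rw [AltRing.P_mul_right, (hx g hg h hh).1, zero_mul, zero_sub]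

theorem Kill.P'_mul_left (hx : Kill L x) : P' g h (k * x) = as g h k * x := by
  rw [AltRing.P'_mul_left, (hx g hg h hh).2, mul_zero, zero_add]

theorem G.P_mul_left (hx : G L 1 x) : P g h (k * x) = x * as g h k := by
  have h1 := (hx.V hk).kill g hg h hh
  have h2 := hx.kill.P_mul_right hg hh hk
  have h3 : P g h (AltRing.V k x) = P g h (k * x) + P g h (x * k) := P_add _ _ _ _
  rw [h1.1, h2] at h3
  linear_combination (norm := abel) - h3

theorem G.P'_mul_right (hx : G L 1 x) : P' g h (x * k) = - (as g h k * x) := by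
  have h1 := (hx.V hk).kill g hg h hh
  have h2 := hx.kill.P'_mul_left hg hh hk
  have h3 : P' g h (AltRing.V k x) = P' g h (k * x) + P' g h (x * k) := P'_add _ _ _ _
  rw [h1.2, h2] at h3
  linear_combination (norm := abel) - h3

theorem G.comm_u (hx : G L 1 x) : x * as g h k = as g h k * x := by
  have h1 := P_cyc g h k x
  have e1 := hx.P_mul_left hg hh hk
  have e2 := hx.P_mul_left hh hk hg
  have e3 := hx.P_mul_left hk hg hh
  rw [← as_cyc g h k] at e2
  rw [← as_cyc h k g, ← as_cyc g h k] at e3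
  have d1 := (hx.kill g hg h hh).1
  have d2 := (hx.kill h hh k hk).1
  have d3 := (hx.kill k hk g hg).1
  rw [e1, e2, e3, d1, d2, d3] at h1
  simp only [mul_zero, zero_add] at h1
  linear_combination (norm := abel) h1

theorem G.P_N (hx : G L 1 x) : P g h (N k x) = 0 := by
  have e1 : as g h (N k x) = (as g h k * x + as g (h * k) x) * k + as g ((h * k) * x) k := by
    linear_combination (norm := (simp only [V, N, B, P, P', f, as_def, mul_sub, sub_mul, mul_add, add_mul, mul_neg, neg_mul, mul_zero, zero_mul, neg_zero]; abel)) - mouf_r (g * h) k x + g * mouf_r h k x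
  have e2 : (h * k) * x = k * (h * x) := by
    have := (hx.kill k hk h hh).1
    exact (sub_eq_zero.mp this).symm
  have e3 : as g (k * (h * x)) k = as k g (h * x) * k := by
    rw [← as_cyc k g, as_l1]
  have e4 := as_mul3l k g h x
  have e5 : f k g h x = f h k g x := by
    rw [f_swap23 k g h x, f_swap12 k h g x, neg_neg]
  have e6 : as g (h * k) x = - (f h k g x + k * as h g x + as k g x * h) := by
    rw [as_swap12]; simp only [f]; abel
  have e7 : as h g x = - as g h x := as_swap12 _ _ _
  have e8 : as k g h = as g h k := as_cyc _ _ _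
  have e9 := AltRing.P_mul_left g h k x
  rw [hx.P_mul_left hg hh hk] at e9
  rw [P_eq, e1, e2, e3, e4, e5, e6, e7, e8]
  have e10 := mouf_r (g * h - h * g) k x
  have e11 : (g * h - h * g) * N k x = (x * as g h k + k * as g h x + as g h k * x) * k := by
    simp only [N]
    rw [← e10]
    congr 1
    linear_combination (norm := abel) - e9
  rw [e11, mul_neg]
  simp only [add_mul, neg_mul, mul_neg, neg_add, neg_neg]
  abel

theorem G.comm_k (hx : G L 1 x) : k * (as g h k * x) = (as g h k * x) * k := by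
  have h1 := hx.P_N hg hh hk
  have e1 : h * N k x = N k (h * x) := by
    rw [N_mul_left, (hx.kill k hk h hh).1, zero_mul, add_zero]
  have e2 : AltRing.V g (N k x) = N k (AltRing.V g x) := by
    rw [V_N, (hx.kill g hg k hk).1, (hx.kill g hg k hk).2, zero_mul, mul_zero, add_zero, sub_zero]
  have e3 : AltRing.V g (h * x) = h * AltRing.V g x := by
    rw [V_mul_left, (hx.kill g hg h hh).1, add_zero]
  have e4 : N k (h * AltRing.V g x) = h * N k (AltRing.V g x) := by
    rw [N_mul_left, ((hx.V hg) k hk h hh).1, zero_mul, add_zero]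
  have e5 := V_mul_left g h (N k x)
  rw [h1, add_zero, e1, e2, V_N, e3, e4, hx.P_mul_left hg hk hh,
    hx.kill.P'_mul_left hg hk hh, hx.comm_u hg hk hh] at e5
  have e6 : as g k h = - as g h k := as_swap23 _ _ _
  rw [e6] at e5
  simp only [neg_mul, mul_neg] at e5
  linear_combination (norm := abel) e5

theorem G.P'_N (hx : G L 1 x) : P' g h (N k x) = 0 := by
  have e1 : N k x * h = N k (x * h) := by
    rw [N_mul_right, (hx.kill k hk h hh).2, mul_zero, sub_zero]
  have e2 : AltRing.V g (N k x) = N k (AltRing.V g x) := by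
    rw [V_N, (hx.kill g hg k hk).1, (hx.kill g hg k hk).2, zero_mul, mul_zero, add_zero, sub_zero]
  have e3 : AltRing.V g (x * h) = AltRing.V g x * h := by
    rw [V_mul_right, (hx.kill g hg h hh).2, sub_zero]
  have e4 : N k (AltRing.V g x * h) = N k (AltRing.V g x) * h := by
    rw [N_mul_right, ((hx.V hg) k hk h hh).2, mul_zero, sub_zero]
  have e5 := V_mul_right g h (N k x)
  rw [e1, e2, V_N, e3, e4, hx.kill.P_mul_right hg hk hh,
    hx.P'_mul_right hg hk hh, hx.comm_u hg hk hh] at e5
  have e6 : as g k h = - as g h k := as_swap23 _ _ _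
  have e7 := hx.comm_k hg hh hk
  rw [e6] at e5
  simp only [neg_mul, mul_neg, neg_neg] at e5
  rw [e7] at e5
  linear_combination (norm := abel) e5

end KK

theorem Kill.V_N {x : A} (hx : Kill L x) {g k : A} (hg : g ∈ L) (hk : k ∈ L) :
    V g (N k x) = N k (V g x) := by
  rw [AltRing.V_N, (hx g hg k hk).1, (hx g hg k hk).2, zero_mul, mul_zero, add_zero, sub_zero]

theorem Kill.V_V {x : A} (hx : Kill L x) {g k : A} (hg : g ∈ L) (hk : k ∈ L) :
    V g (V k x) = V k (V g x) := by
  rw [AltRing.V_V, (hx g hg k hk).1, (hx g hg k hk).2, add_zero, sub_zero]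

theorem Kill.N_N {x : A} (hx : Kill L x) {g k : A} (hg : g ∈ L) (hk : k ∈ L) :
    N g (N k x) = N k (N g x) := by
  rw [AltRing.N_N, (hx g hg k hk).1, (hx g hg k hk).2]
  simp only [mul_zero, zero_mul, add_zero, sub_zero]

theorem G.kill_N {x : A} (hx : G L 1 x) {k : A} (hk : k ∈ L) : Kill L (N k x) :=
  fun g hg h hh => ⟨hx.P_N hg hh hk, hx.P'_N hg hh hk⟩

theorem G.N {n : ℕ} : ∀ {x : A}, G L (n + 1) x → ∀ {k : A}, k ∈ L → G L n (N k x) := by
  induction n with
  | zero => intro x hx k hk; exact hx.kill_N hk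
  | succ n ih =>
    intro x hx k hk
    refine ⟨(hx.mono (by omega : 1 ≤ n + 2)).kill_N hk, fun g hg => ?_⟩
    rw [hx.kill.V_N hg hk]
    exact ih (hx.V hg) hk

/-- The intersection of all `G_n`. -/
def GI (L : AddSubgroup A) : AddSubgroup A where
  carrier := {x | ∀ n, G L n x}
  add_mem' hx hy n := (hx n).add (hy n)
  zero_mem' n := G.zero n
  neg_mem' hx n := (hx n).neg

theorem mem_GI {x : A} : x ∈ GI L ↔ ∀ n, G L n x := Iff.rfl

theorem GI.kill {x : A} (hx : x ∈ GI L) : Kill L x := hx 0
theorem GI.V {x : A} (hx : x ∈ GI L) {k : A} (hk : k ∈ L) : V k x ∈ GI L :=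
  fun n => (hx (n + 1)).V hk
theorem GI.N {x : A} (hx : x ∈ GI L) {k : A} (hk : k ∈ L) : N k x ∈ GI L :=
  fun n => (hx (n + 1)).N hk
theorem GI.B {x : A} (hx : x ∈ GI L) {g k : A} (hg : g ∈ L) (hk : k ∈ L) : B g k x ∈ GI L := by
  rw [B_eq]
  exact sub_mem (sub_mem (GI.N hx (add_mem hg hk)) (GI.N hx hg)) (GI.N hx hk)

/-- coinduction principle for `GI` -/
theorem GI.coind (S : A → Prop) (h0 : ∀ x, S x → Kill L x)
    (hV : ∀ x, S x → ∀ k ∈ L, S (AltRing.V k x)) {x : A} (hx : S x) : x ∈ GI L := by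
  intro n
  induction n generalizing x with
  | zero => exact h0 x hx
  | succ n ih => exact ⟨h0 x hx, fun k hk => ih (hV x hx k hk)⟩

/-- Enough to test `Kill` on a generating set. -/
theorem kill_closure {s : Set A} {x : A} (h : ∀ g ∈ s, ∀ h ∈ s, P g h x = 0 ∧ P' g h x = 0) :
    Kill (AddSubgroup.closure s) x := by
  have key : ∀ g ∈ s, ∀ h ∈ AddSubgroup.closure s, P g h x = 0 ∧ P' g h x = 0 := by
    intro g hg k hk
    induction hk using AddSubgroup.closure_induction with
    | mem y hy => exact h g hg y hy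
    | zero => exact ⟨P_zero2 _ _, P'_zero2 _ _⟩
    | add y z _ _ h1 h2 =>
      exact ⟨by rw [P_add2, h1.1, h2.1, add_zero], by rw [P'_add2, h1.2, h2.2, add_zero]⟩
    | neg y _ h1 => exact ⟨by rw [P_neg2, h1.1, neg_zero], by rw [P'_neg2, h1.2, neg_zero]⟩
  intro g hg k hk
  induction hg using AddSubgroup.closure_induction with
  | mem y hy => exact key y hy k hk
  | zero => exact ⟨P_zero1 _ _, P'_zero1 _ _⟩
  | add y z _ _ h1 h2 =>
    exact ⟨by rw [P_add1, h1.1, h2.1, add_zero], by rw [P'_add1, h1.2, h2.2, add_zero]⟩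
  | neg y _ h1 => exact ⟨by rw [P_neg1, h1.1, neg_zero], by rw [P'_neg1, h1.2, neg_zero]⟩

theorem kill_three {a b c x : A} (h1 : P a b x = 0) (h2 : P' a b x = 0) (h3 : P b c x = 0)
    (h4 : P' b c x = 0) (h5 : P c a x = 0) (h6 : P' c a x = 0) :
    Kill (AddSubgroup.closure {a, b, c}) x := by
  apply kill_closure
  intro g hg h hh
  simp only [Set.mem_insert_iff, Set.mem_singleton_iff] at hg hh
  rcases hg with rfl | rfl | rfl <;> rcases hh with rfl | rfl | rfl <;>
    first
    | exact ⟨P_self _ _, P'_self _ _⟩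
    | exact ⟨by assumption, by assumption⟩
    | exact ⟨by rw [P_swap, neg_eq_zero]; assumption, by rw [P'_swap, neg_eq_zero]; assumption⟩

end Pool.Agent.AltRing
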