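import Pool.Agent.Lib.MP_a8cdcd_al.Model

/-!
# Existence of generic parameters
-/

set_option autoImplicit false
set_option linter.unusedSimpArgs false
set_option linter.unusedVariables false

namespace Pool.Agent.AltRing

namespace Model

theorem exists_params {K : Type*} [Field K] (ta tb tc na nb nc bab bbc bca th : K)
    (d kN R S mN : K)
    (hd : d = 4 * na - ta ^ 2) (hkN : kN = na * tb ^ 2 - ta * tb * bab + bab ^ 2 - nb * d)
    (hR : R = d * bbc - (2 * na * tb - ta * bab) * tc - (2 * bab - ta * tb) * bca)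
    (hS : S = d * th - (2 * na * tb - ta * bab) * bca
      - (2 * bab - ta * tb) * (ta * bca - na * tc))
    (hmN : mN = d * kN * (na * tc ^ 2 - ta * tc * bca + bca ^ 2)
      - (na * R ^ 2 - ta * R * S + S ^ 2) - nc * d ^ 2 * kN)
    (h1 : d ≠ 0) (h2 : kN ≠ 0) (h3 : mN ≠ 0) :
    ∃ k m b0 b1 c0 c1 c2 c3 : K, k ≠ 0 ∧ m ≠ 0 ∧ 2 * b0 + ta * b1 = tb ∧
      2 * c0 + ta * c1 = tc ∧ b0 ^ 2 + ta * b0 * b1 + na * b1 ^ 2 - k = nb ∧
      c0 ^ 2 + ta * c0 * c1 + na * c1 ^ 2 - k * (c2 ^ 2 + ta * c2 * c3 + na * c3 ^ 2) - m = nc ∧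
      ta * b0 + 2 * na * b1 = bab ∧
      2 * b0 * c0 + ta * (b0 * c1 + b1 * c0) + 2 * na * b1 * c1 - k * (2 * c2 + ta * c3) = bbc ∧
      ta * c0 + 2 * na * c1 = bca ∧
      2 * c0 * (- na * b1) + ta * (c0 * (b0 + ta * b1) + c1 * (- na * b1)) +
        2 * na * c1 * (b0 + ta * b1) - k * (ta * c2 + 2 * na * c3) = th := by
  obtain ⟨b0, hb0⟩ : ∃ x, x = (2 * na * tb - ta * bab) / d := ⟨_, rfl⟩
  obtain ⟨b1, hb1⟩ : ∃ x, x = (2 * bab - ta * tb) / d := ⟨_, rfl⟩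
  obtain ⟨c0, hc0⟩ : ∃ x, x = (2 * na * tc - ta * bca) / d := ⟨_, rfl⟩
  obtain ⟨c1, hc1⟩ : ∃ x, x = (2 * bca - ta * tc) / d := ⟨_, rfl⟩
  obtain ⟨c2, hc2⟩ : ∃ x, x = - (2 * na * R - ta * S) / (d * kN) := ⟨_, rfl⟩
  obtain ⟨c3, hc3⟩ : ∃ x, x = - (2 * S - ta * R) / (d * kN) := ⟨_, rfl⟩
  obtain ⟨k, hk⟩ : ∃ x, x = kN / d := ⟨_, rfl⟩
  obtain ⟨m, hm⟩ : ∃ x, x = mN / (d ^ 2 * kN) := ⟨_, rfl⟩
  have B1 : 2 * b0 + ta * b1 = tb := by
    rw [hb0, hb1]; field_simp; rw [hd]; ring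
  have B2 : ta * b0 + 2 * na * b1 = bab := by
    rw [hb0, hb1]; field_simp; rw [hd]; ring
  have C1 : 2 * c0 + ta * c1 = tc := by
    rw [hc0, hc1]; field_simp; rw [hd]; ring
  have C2 : ta * c0 + 2 * na * c1 = bca := by
    rw [hc0, hc1]; field_simp; rw [hd]; ring
  have D1 : k * (2 * c2 + ta * c3) = - R / d := by
    rw [hk, hc2, hc3]; field_simp; rw [hd]; ring
  have D2 : k * (ta * c2 + 2 * na * c3) = - S / d := by
    rw [hk, hc2, hc3]; field_simp; rw [hd]; ring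
  have R1 : R / d = bbc - b0 * tc - b1 * bca := by
    rw [hR, hb0, hb1]; field_simp
  have S1 : S / d = th - b0 * bca - b1 * (ta * bca - na * tc) := by
    rw [hS, hb0, hb1]; field_simp
  have A1 : c0 ^ 2 + ta * c0 * c1 + na * c1 ^ 2 =
      (na * tc ^ 2 - ta * tc * bca + bca ^ 2) / d := by
    rw [hc0, hc1]; field_simp; rw [hd]; ring
  have A2 : k * (c2 ^ 2 + ta * c2 * c3 + na * c3 ^ 2) =
      (na * R ^ 2 - ta * R * S + S ^ 2) / (d ^ 2 * kN) := by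
    rw [hk, hc2, hc3]; field_simp; rw [hd]; ring
  have A3 : b0 ^ 2 + ta * b0 * b1 + na * b1 ^ 2 - k = nb := by
    rw [hk, hb0, hb1, hkN]; field_simp; rw [hd]; ring
  refine ⟨k, m, b0, b1, c0, c1, c2, c3, ?_, ?_, B1, C1, A3, ?_, B2, ?_, C2, ?_⟩
  · rw [hk]; exact div_ne_zero h2 h1
  · rw [hm]; exact div_ne_zero h3 (mul_ne_zero (pow_ne_zero 2 h1) h2)
  · rw [A1, A2, hm, hmN]; field_simp; ring
  · linear_combination b0 * C1 + b1 * C2 - D1 + R1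
  · linear_combination (- na * b1) * C1 + (b0 + ta * b1) * C2 - D2 + S1

end Model

end Pool.Agent.AltRing
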