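import Pool.Agent.Lib.MP_a8cdcd_al.Quot
import Pool.Agent.Lib.MP_a8cdcd_al.Eval
import Pool.Agent.Lib.MP_a8cdcd_al.Params

/-!
# The free alternative ring on three generators is semiprime
-/

set_option autoImplicit false
set_option linter.unusedSimpArgs false
set_option linter.unusedVariables false
set_option linter.unusedSectionVars false

namespace Pool.Agent.AltRing

open MvPolynomial

section
variable {A : Type*} [NonUnitalNonAssocRing A]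

theorem W_map {R : Type*} [NonUnitalNonAssocRing R] (φ : A →ₙ+* R) (a b c x : A) (i : Fin 10) :
    φ (W a b c i x) = W (φ a) (φ b) (φ c) i (φ x) := by
  fin_cases i <;> simp [W, V, N, B, Th, map_mul, map_add]

theorem as_map {R : Type*} [NonUnitalNonAssocRing R] (φ : A →ₙ+* R) (x y z : A) :
    φ (as x y z) = as (φ x) (φ y) (φ z) := by
  simp only [as, map_sub, map_mul]

theorem W_smul {K : Type*} [CommRing K] {c₁ c₂ c₃ m : K} (x y z w : Oct c₁ c₂ c₃ m) (k : K)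
    (i : Fin 10) : W x y z i (k • w) = k • W x y z i w := by
  fin_cases i <;> simp [W, V, N, B, Th, Oct.smul_mul, Oct.mul_smul, smul_add]

/-- the normal form of the elements of `SS` -/
theorem SS_form {a b c : A} {Q : AddSubgroup A} {y : A} (hy : y ∈ SS a b c Q) :
    ∃ q0 ∈ Q, ∃ q1 ∈ Q, ∃ q2 ∈ Q, ∃ q3 ∈ Q, ∃ q4 ∈ Q, ∃ q5 ∈ Q, ∃ q6 ∈ Q, ∃ q7 ∈ Q,
      y = q0 + a * q1 + b * q2 + a * (b * q3) + c * q4 + a * (c * q5) + b * (c * q6) +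
        a * (b * (c * q7)) := by
  have z : (0 : A) ∈ Q := Q.zero_mem
  induction hy using AddSubgroup.closure_induction with
  | mem y hy =>
    cases hy with
    | t0 q h => exact ⟨_, h, 0, z, 0, z, 0, z, 0, z, 0, z, 0, z, 0, z, by simp⟩
    | t1 q h => exact ⟨0, z, _, h, 0, z, 0, z, 0, z, 0, z, 0, z, 0, z, by simp⟩
    | t2 q h => exact ⟨0, z, 0, z, _, h, 0, z, 0, z, 0, z, 0, z, 0, z, by simp⟩
    | t3 q h => exact ⟨0, z, 0, z, 0, z, _, h, 0, z, 0, z, 0, z, 0, z, by simp⟩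
    | t4 q h => exact ⟨0, z, 0, z, 0, z, 0, z, _, h, 0, z, 0, z, 0, z, by simp⟩
    | t5 q h => exact ⟨0, z, 0, z, 0, z, 0, z, 0, z, _, h, 0, z, 0, z, by simp⟩
    | t6 q h => exact ⟨0, z, 0, z, 0, z, 0, z, 0, z, 0, z, _, h, 0, z, by simp⟩
    | t7 q h => exact ⟨0, z, 0, z, 0, z, 0, z, 0, z, 0, z, 0, z, _, h, by simp⟩
  | zero => exact ⟨0, z, 0, z, 0, z, 0, z, 0, z, 0, z, 0, z, 0, z, by simp⟩
  | add x y _ _ h1 h2 =>
    obtain ⟨p0, a0, p1, a1, p2, a2, p3, a3, p4, a4, p5, a5, p6, a6, p7, a7, rfl⟩ := h1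
    obtain ⟨q0, b0, q1, b1, q2, b2, q3, b3, q4, b4, q5, b5, q6, b6, q7, b7, rfl⟩ := h2
    refine ⟨_, add_mem a0 b0, _, add_mem a1 b1, _, add_mem a2 b2, _, add_mem a3 b3,
      _, add_mem a4 b4, _, add_mem a5 b5, _, add_mem a6 b6, _, add_mem a7 b7, ?_⟩
    simp only [mul_add]
    abel
  | neg x _ h1 =>
    obtain ⟨p0, a0, p1, a1, p2, a2, p3, a3, p4, a4, p5, a5, p6, a6, p7, a7, rfl⟩ := h1
    refine ⟨_, neg_mem a0, _, neg_mem a1, _, neg_mem a2, _, neg_mem a3,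
      _, neg_mem a4, _, neg_mem a5, _, neg_mem a6, _, neg_mem a7, ?_⟩
    simp only [mul_neg]
    abel

end

section
variable {A : Type*} [NonUnitalNonAssocRing A] [IsAlt A]

theorem phi_ev {K : Type*} [Field K] {c₁ c₂ c₃ m : K} (a b c : A) (φ : A →ₙ+* Oct c₁ c₂ c₃ m)
    (t : Fin 10 → K)
    (ht : ∀ i, W (φ a) (φ b) (φ c) i (as (φ a) (φ b) (φ c)) = t i • as (φ a) (φ b) (φ c))
    (P : MvPolynomial (Fin 10) ℤ) :
    φ (ev a b c P) = (eval₂Hom (Int.castRingHom K) t P) • as (φ a) (φ b) (φ c) := by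
  induction P using MvPolynomial.induction_on with
  | C z =>
    rw [ev_C, map_zsmul, as_map, eval₂Hom_C, eq_intCast]
    exact (Int.cast_smul_eq_zsmul K z _).symm
  | add P R h1 h2 => rw [ev_add, map_add, h1, h2, map_add, add_smul]
  | mul_X P i h =>
    rw [mul_comm, ev_X_mul, W_map, h, W_smul, ht, map_mul, eval₂Hom_X', smul_smul, mul_comm]

end

/-- `A` with `a b c` maps to every alternative ring -/
def FreeAlt {A : Type*} [NonUnitalNonAssocRing A] (a b c : A) : Prop :=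
  ∀ (R : Type) [NonUnitalNonAssocRing R] [IsAlt R] (x y z : R),
    ∃ φ : A →ₙ+* R, φ a = x ∧ φ b = y ∧ φ c = z

instance instAssoc (R : Type*) [NonUnitalRing R] : IsAlt R where
  left a b := mul_assoc a a b
  right a b := mul_assoc b a a

section
variable {K : Type} [Field K] [Algebra (MvPolynomial (Fin 10) ℤ) K]
    [IsFractionRing (MvPolynomial (Fin 10) ℤ) K]

/-- polynomials whose value at a point is nonzero stay nonzero in the fraction field -/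
theorem ne_of_eval (p : MvPolynomial (Fin 10) ℤ)
    (h : MvPolynomial.eval ![0, 0, 0, 1, 1, 1, 0, 0, 0, 0] p ≠ 0) :
    algebraMap (MvPolynomial (Fin 10) ℤ) K p ≠ 0 := by
  intro h0
  have := (map_eq_zero_iff _ (IsFractionRing.injective (MvPolynomial (Fin 10) ℤ) K)).mp h0
  rw [this] at h
  simp at h

variable (K) in
/-- the generic point -/
noncomputable def tt (i : Fin 10) : K := algebraMap (MvPolynomial (Fin 10) ℤ) K (X i)

theorem ev_tt (P : MvPolynomial (Fin 10) ℤ) :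
    eval₂Hom (Int.castRingHom K) (tt K) P = algebraMap (MvPolynomial (Fin 10) ℤ) K P := by
  have : eval₂Hom (Int.castRingHom K) (tt K) = algebraMap (MvPolynomial (Fin 10) ℤ) K := by
    apply MvPolynomial.ringHom_ext
    · intro z
      simp
    · intro i
      simp [tt]
  rw [this]

theorem ev_tt_inj {P : MvPolynomial (Fin 10) ℤ}
    (h : eval₂Hom (Int.castRingHom K) (tt K) P = 0) : P = 0 := by
  rw [ev_tt] at h
  exact (map_eq_zero_iff _ (IsFractionRing.injective (MvPolynomial (Fin 10) ℤ) K)).mp h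

variable (K) in
theorem generic : 4 * tt K 3 - tt K 0 ^ 2 ≠ 0 ∧
    ∃ k m b0 b1 c0 c1 c2 c3 : K, k ≠ 0 ∧ m ≠ 0 ∧ 2 * b0 + tt K 0 * b1 = tt K 1 ∧
      2 * c0 + tt K 0 * c1 = tt K 2 ∧ b0 ^ 2 + tt K 0 * b0 * b1 + tt K 3 * b1 ^ 2 - k = tt K 4 ∧
      c0 ^ 2 + tt K 0 * c0 * c1 + tt K 3 * c1 ^ 2
        - k * (c2 ^ 2 + tt K 0 * c2 * c3 + tt K 3 * c3 ^ 2) - m = tt K 5 ∧
      tt K 0 * b0 + 2 * tt K 3 * b1 = tt K 6 ∧
      2 * b0 * c0 + tt K 0 * (b0 * c1 + b1 * c0) + 2 * tt K 3 * b1 * c1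
        - k * (2 * c2 + tt K 0 * c3) = tt K 7 ∧
      tt K 0 * c0 + 2 * tt K 3 * c1 = tt K 8 ∧
      2 * c0 * (- tt K 3 * b1) + tt K 0 * (c0 * (b0 + tt K 0 * b1) + c1 * (- tt K 3 * b1)) +
        2 * tt K 3 * c1 * (b0 + tt K 0 * b1) - k * (tt K 0 * c2 + 2 * tt K 3 * c3) = tt K 9 := by
  obtain ⟨d, hd⟩ : ∃ d : MvPolynomial (Fin 10) ℤ, d = 4 * X 3 - X 0 ^ 2 := ⟨_, rfl⟩
  obtain ⟨kN, hkN⟩ : ∃ p : MvPolynomial (Fin 10) ℤ, p =
    X 3 * X 1 ^ 2 - X 0 * X 1 * X 6 + X 6 ^ 2 - X 4 * d := ⟨_, rfl⟩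
  obtain ⟨R, hR⟩ : ∃ p : MvPolynomial (Fin 10) ℤ, p =
    d * X 7 - (2 * X 3 * X 1 - X 0 * X 6) * X 2 - (2 * X 6 - X 0 * X 1) * X 8 := ⟨_, rfl⟩
  obtain ⟨S, hS⟩ : ∃ p : MvPolynomial (Fin 10) ℤ, p =
    d * X 9 - (2 * X 3 * X 1 - X 0 * X 6) * X 8
      - (2 * X 6 - X 0 * X 1) * (X 0 * X 8 - X 3 * X 2) := ⟨_, rfl⟩
  obtain ⟨mN, hmN⟩ : ∃ p : MvPolynomial (Fin 10) ℤ, p =
    d * kN * (X 3 * X 2 ^ 2 - X 0 * X 2 * X 8 + X 8 ^ 2)
      - (X 3 * R ^ 2 - X 0 * R * S + S ^ 2) - X 5 * d ^ 2 * kN := ⟨_, rfl⟩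
  let A := algebraMap (MvPolynomial (Fin 10) ℤ) K
  have e1 : A d = 4 * tt K 3 - tt K 0 ^ 2 := by
    rw [hd]; simp only [map_sub, map_mul, map_pow, map_ofNat]; rfl
  have n1 : A d ≠ 0 := ne_of_eval d (by rw [hd]; simp)
  refine ⟨by rw [← e1]; exact n1, ?_⟩
  have vd : MvPolynomial.eval ![0, 0, 0, 1, 1, 1, 0, 0, 0, 0] d = (4 : ℤ) := by
    rw [hd]; simp
  have vk : MvPolynomial.eval ![0, 0, 0, 1, 1, 1, 0, 0, 0, 0] kN = (-4 : ℤ) := by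
    rw [hkN]; simp [vd]
  have vR : MvPolynomial.eval ![0, 0, 0, 1, 1, 1, 0, 0, 0, 0] R = (0 : ℤ) := by
    rw [hR]; simp [vd]
  have vS : MvPolynomial.eval ![0, 0, 0, 1, 1, 1, 0, 0, 0, 0] S = (0 : ℤ) := by
    rw [hS]; simp [vd]
  have vm : MvPolynomial.eval ![0, 0, 0, 1, 1, 1, 0, 0, 0, 0] mN = (64 : ℤ) := by
    rw [hmN]; simp [vd, vk, vR, vS]
  exact Model.exists_params (tt K 0) (tt K 1) (tt K 2) (tt K 3) (tt K 4) (tt K 5) (tt K 6)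
    (tt K 7) (tt K 8) (tt K 9)
    (A d) (A kN) (A R) (A S) (A mN) e1
    (by rw [hkN]; simp only [map_sub, map_add, map_mul, map_pow, map_ofNat]; rfl)
    (by rw [hR]; simp only [map_sub, map_add, map_mul, map_pow, map_ofNat]; rfl)
    (by rw [hS]; simp only [map_sub, map_add, map_mul, map_pow, map_ofNat]; rfl)
    (by rw [hmN]; simp only [map_sub, map_add, map_mul, map_pow, map_ofNat]; rfl)
    n1 (ne_of_eval kN (by rw [vk]; norm_num)) (ne_of_eval mN (by rw [vm]; norm_num))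

end

/-- the ten eigenvalue equations -/
theorem eigen {K : Type} [Field K] (t : Fin 10 → K) (k m b0 b1 c0 c1 c2 c3 : K)
    (i1 : 2 * b0 + t 0 * b1 = t 1) (i2 : 2 * c0 + t 0 * c1 = t 2)
    (i4 : b0 ^ 2 + t 0 * b0 * b1 + t 3 * b1 ^ 2 - k = t 4)
    (i5 : c0 ^ 2 + t 0 * c0 * c1 + t 3 * c1 ^ 2
        - k * (c2 ^ 2 + t 0 * c2 * c3 + t 3 * c3 ^ 2) - m = t 5)
    (i6 : t 0 * b0 + 2 * t 3 * b1 = t 6)
    (i7 : 2 * b0 * c0 + t 0 * (b0 * c1 + b1 * c0) + 2 * t 3 * b1 * c1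
        - k * (2 * c2 + t 0 * c3) = t 7)
    (i8 : t 0 * c0 + 2 * t 3 * c1 = t 8)
    (i9 : 2 * c0 * (- t 3 * b1) + t 0 * (c0 * (b0 + t 0 * b1) + c1 * (- t 3 * b1)) +
        2 * t 3 * c1 * (b0 + t 0 * b1) - k * (t 0 * c2 + 2 * t 3 * c3) = t 9) (i : Fin 10) :
    W (Model.ga (t 0) (t 3) k m) (Model.gb (t 0) (t 3) k m b0 b1)
      (Model.gc (t 0) (t 3) k m c0 c1 c2 c3) i (Model.gu (t 0) (t 3) k m) =
      t i • Model.gu (t 0) (t 3) k m := by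
  have j0 := Model.Va (t 0) (t 3) k m
  have j1 := Model.Vb (t 0) (t 3) k m b0 b1
  have j2 := Model.Vc (t 0) (t 3) k m c0 c1 c2 c3
  have j3 := Model.Na (t 0) (t 3) k m
  have j4 := Model.Nb (t 0) (t 3) k m b0 b1
  have j5 := Model.Nc (t 0) (t 3) k m c0 c1 c2 c3
  have j6 := Model.Bab (t 0) (t 3) k m b0 b1
  have j7 := Model.Bbc (t 0) (t 3) k m b0 b1 c0 c1 c2 c3
  have j8 := Model.Bca (t 0) (t 3) k m c0 c1 c2 c3
  have j9 := Model.Th (t 0) (t 3) k m b0 b1 c0 c1 c2 c3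
  rw [i1] at j1
  rw [i2] at j2
  rw [i4] at j4
  rw [i5] at j5
  rw [i6] at j6
  rw [i7] at j7
  rw [i8] at j8
  rw [i9] at j9
  generalize Model.ga (t 0) (t 3) k m = x at *
  generalize Model.gb (t 0) (t 3) k m b0 b1 = y at *
  generalize Model.gc (t 0) (t 3) k m c0 c1 c2 c3 = z at *
  generalize Model.gu (t 0) (t 3) k m = u at *
  fin_cases i
  · exact j0
  · exact j1
  · exact j2
  · exact j3
  · exact j4
  · exact j5
  · exact j6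
  · exact j7
  · exact j8
  · exact j9

theorem semiprime_aux {K : Type} [Field K] (t : Fin 10 → K)
    (hinj : ∀ P : MvPolynomial (Fin 10) ℤ, eval₂Hom (Int.castRingHom K) t P = 0 → P = 0)
    (hd : 4 * t 3 - t 0 ^ 2 ≠ 0) (k m b0 b1 c0 c1 c2 c3 : K) (hk : k ≠ 0) (hm : m ≠ 0)
    (i1 : 2 * b0 + t 0 * b1 = t 1) (i2 : 2 * c0 + t 0 * c1 = t 2)
    (i4 : b0 ^ 2 + t 0 * b0 * b1 + t 3 * b1 ^ 2 - k = t 4)
    (i5 : c0 ^ 2 + t 0 * c0 * c1 + t 3 * c1 ^ 2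
        - k * (c2 ^ 2 + t 0 * c2 * c3 + t 3 * c3 ^ 2) - m = t 5)
    (i6 : t 0 * b0 + 2 * t 3 * b1 = t 6)
    (i7 : 2 * b0 * c0 + t 0 * (b0 * c1 + b1 * c0) + 2 * t 3 * b1 * c1
        - k * (2 * c2 + t 0 * c3) = t 7)
    (i8 : t 0 * c0 + 2 * t 3 * c1 = t 8)
    (i9 : 2 * c0 * (- t 3 * b1) + t 0 * (c0 * (b0 + t 0 * b1) + c1 * (- t 3 * b1)) +
        2 * t 3 * c1 * (b0 + t 0 * b1) - k * (t 0 * c2 + 2 * t 3 * c3) = t 9)
    {A : Type*} [NonUnitalNonAssocRing A] [IsAlt A] {a b c : A} (hG : Gen a b c)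
    (hF : FreeAlt a b c) (J : Set A) (hl : ∀ w, ∀ x ∈ J, w * x ∈ J) (hJ : ∀ x ∈ J, x * x = 0)
    {x : A} (hx : x ∈ J) : x = 0 := by
  obtain ⟨ψ, h0, h1, h2⟩ := hF (FreeAlgebra ℤ (Fin 3)) (FreeAlgebra.ι ℤ 0) (FreeAlgebra.ι ℤ 1)
    (FreeAlgebra.ι ℤ 2)
  have hψ : ψ x = 0 := by
    have : ψ x * ψ x = 0 := by rw [← map_mul, hJ x hx, map_zero]
    exact mul_self_eq_zero.mp this
  have hs := QQ_stab a b c
  have hSt : St a b c (SS a b c (QQ a b c)) :=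
    { la := fun _ hy => hs.La hy
      lb := fun _ hy => hs.Lb hy
      lc := fun _ hy => hs.Lc hy
      ra := fun _ hy => hs.Ra hy
      rb := fun _ hy => hs.Rb hy
      rc := fun _ hy => hs.Rc hy }
  have hxS : x ∈ SS a b c (QQ a b c) :=
    mem_of_free hG (hSt.ideal hG) (s0 (u_mem_QQ a b c)) ψ h0 h1 h2 hψ
  obtain ⟨q0, ⟨P0, rfl⟩, q1, ⟨P1, rfl⟩, q2, ⟨P2, rfl⟩, q3, ⟨P3, rfl⟩, q4, ⟨P4, rfl⟩,
    q5, ⟨P5, rfl⟩, q6, ⟨P6, rfl⟩, q7, ⟨P7, rfl⟩, hxe⟩ := SS_form hxS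
  obtain ⟨φ, g0, g1, g2⟩ := hF (Oct (- t 3) (t 0) k m) (Model.ga (t 0) (t 3) k m)
    (Model.gb (t 0) (t 3) k m b0 b1) (Model.gc (t 0) (t 3) k m c0 c1 c2 c3)
  have hu : as (φ a) (φ b) (φ c) = Model.gu (t 0) (t 3) k m := by
    rw [g0, g1, g2, Model.as_eq]
  have ht : ∀ i, W (φ a) (φ b) (φ c) i (as (φ a) (φ b) (φ c)) =
      t i • as (φ a) (φ b) (φ c) := by
    intro i
    rw [hu, g0, g1, g2]
    exact eigen t k m b0 b1 c0 c1 c2 c3 i1 i2 i4 i5 i6 i7 i8 i9 i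
  have hev : ∀ P, φ (ev a b c P) =
      (eval₂Hom (Int.castRingHom K) t P) • Model.gu (t 0) (t 3) k m := by
    intro P
    rw [phi_ev a b c φ t ht P, hu]
  have htr : ∀ y ∈ J, Model.tr (φ y) = 0 := by
    intro y hy
    apply Model.tr_zero
    rw [← map_mul, hJ y hy, map_zero]
  have hφ : φ x = 0 := by
    apply Model.nondeg (b0 := b0) (b1 := b1) (h0 := c0) (h1 := c1) (h2 := c2) (h3 := c3) hd hk hm
    · exact htr x hx
    · rw [← g0, ← map_mul]; exact htr _ (hl _ _ hx)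
    · rw [← g1, ← map_mul]; exact htr _ (hl _ _ hx)
    · rw [← g0, ← g1, ← map_mul, ← map_mul]; exact htr _ (hl _ _ hx)
    · rw [← g2, ← map_mul]; exact htr _ (hl _ _ hx)
    · rw [← g0, ← g2, ← map_mul, ← map_mul]; exact htr _ (hl _ _ hx)
    · rw [← g1, ← g2, ← map_mul, ← map_mul]; exact htr _ (hl _ _ hx)
    · rw [← g0, ← g1, ← g2, ← map_mul, ← map_mul, ← map_mul]; exact htr _ (hl _ _ hx)
  rw [hxe] at hφ
  simp only [map_add, map_mul, hev, g0, g1, g2] at hφ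
  obtain ⟨r0, r1, r2, r3, r4, r5, r6, r7⟩ := Model.indep (t 0) (t 3) k m b0 b1 c0 c1 c2 c3 hd hk hm
    _ _ _ _ _ _ _ _ hφ
  rw [hxe, hinj _ r0, hinj _ r1, hinj _ r2, hinj _ r3, hinj _ r4, hinj _ r5, hinj _ r6,
    hinj _ r7]
  simp [ev_zero]

theorem semiprime_of_field (K : Type) [Field K] [Algebra (MvPolynomial (Fin 10) ℤ) K]
    [IsFractionRing (MvPolynomial (Fin 10) ℤ) K]
    {A : Type*} [NonUnitalNonAssocRing A] [IsAlt A] {a b c : A} (hG : Gen a b c)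
    (hF : FreeAlt a b c) (J : Set A) (hl : ∀ w, ∀ x ∈ J, w * x ∈ J) (hJ : ∀ x ∈ J, x * x = 0)
    {x : A} (hx : x ∈ J) : x = 0 := by
  obtain ⟨hd, k, m, b0, b1, c0, c1, c2, c3, hk, hm, i1, i2, i4, i5, i6, i7, i8, i9⟩ := generic K
  exact semiprime_aux (tt K) (fun P => ev_tt_inj) hd k m b0 b1 c0 c1 c2 c3 hk hm i1 i2 i4 i5 i6 i7
    i8 i9 hG hF J hl hJ hx

/-- The free alternative ring on three generators has no nonzero left ideal all of whose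
elements square to zero. -/
theorem semiprime {A : Type*} [NonUnitalNonAssocRing A] [IsAlt A] {a b c : A} (hG : Gen a b c)
    (hF : FreeAlt a b c) (J : Set A) (hl : ∀ w, ∀ x ∈ J, w * x ∈ J) (hJ : ∀ x ∈ J, x * x = 0)
    {x : A} (hx : x ∈ J) : x = 0 :=
  semiprime_of_field (FractionRing (MvPolynomial (Fin 10) ℤ)) hG hF J hl hJ hx

end Pool.Agent.AltRing
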