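import Pool.Agent.Lib.MP_a8cdcd_al.Oct

/-!
# The generic model
-/

set_option autoImplicit false
set_option linter.unusedSimpArgs false
set_option linter.unusedVariables false
set_option linter.unusedSectionVars false
set_option linter.unreachableTactic false
set_option linter.unusedTactic false
set_option linter.unnecessarySeqFocus false

open Quaternion

namespace Pool.Agent.AltRing

namespace Model

section
variable {K : Type*} [CommRing K] (t n k m b0 b1 h0 h1 h2 h3 : K)

/-- the algebra -/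
abbrev O : Type _ := Oct (-n) t k m

/-- first generator -/
def ga : Oct (-n) t k m := Oct.mk ⟨0, 1, 0, 0⟩ 0
/-- second generator -/
def gb : Oct (-n) t k m := Oct.mk ⟨b0, b1, 1, 0⟩ 0
/-- third generator -/
def gc : Oct (-n) t k m := Oct.mk ⟨h0, h1, h2, h3⟩ 1
/-- the associator -/
def gu : Oct (-n) t k m := Oct.mk 0 ⟨0, 0, -t, 2⟩

theorem as_eq : as (ga t n k m) (gb t n k m b0 b1) (gc t n k m h0 h1 h2 h3) = gu t n k m := by
  simp only [as, ga, gb, gc, gu]
  apply Oct.ext
  · ext <;> simp <;> ring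
  · ext <;> simp <;> ring

theorem Va : V (ga t n k m) (gu t n k m) = t • gu t n k m := by
  simp only [V, ga, gb, gc, gu]
  apply Oct.ext
  · ext <;> simp <;> ring
  · ext <;> simp <;> ring

theorem Vb : V (gb t n k m b0 b1) (gu t n k m) = (2 * b0 + t * b1) • gu t n k m := by
  simp only [V, ga, gb, gc, gu]
  apply Oct.ext
  · ext <;> simp <;> ring
  · ext <;> simp <;> ring

theorem Vc : V (gc t n k m h0 h1 h2 h3) (gu t n k m) = (2 * h0 + t * h1) • gu t n k m := by
  simp only [V, ga, gb, gc, gu]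
  apply Oct.ext
  · ext <;> simp <;> ring
  · ext <;> simp <;> ring

theorem Na : N (ga t n k m) (gu t n k m) = n • gu t n k m := by
  simp only [N, ga, gb, gc, gu]
  apply Oct.ext
  · ext <;> simp <;> ring
  · ext <;> simp <;> ring

theorem Nb : N (gb t n k m b0 b1) (gu t n k m) =
    (b0 ^ 2 + t * b0 * b1 + n * b1 ^ 2 - k) • gu t n k m := by
  simp only [N, ga, gb, gc, gu]
  apply Oct.ext
  · ext <;> simp <;> ring
  · ext <;> simp <;> ring

theorem Nc : N (gc t n k m h0 h1 h2 h3) (gu t n k m) =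
    (h0 ^ 2 + t * h0 * h1 + n * h1 ^ 2 - k * (h2 ^ 2 + t * h2 * h3 + n * h3 ^ 2) - m) •
      gu t n k m := by
  simp only [N, ga, gb, gc, gu]
  apply Oct.ext
  · ext <;> simp <;> ring
  · ext <;> simp <;> ring

theorem Bab : B (ga t n k m) (gb t n k m b0 b1) (gu t n k m) =
    (t * b0 + 2 * n * b1) • gu t n k m := by
  simp only [B, ga, gb, gc, gu]
  apply Oct.ext
  · ext <;> simp <;> ring
  · ext <;> simp <;> ring

theorem Bbc : B (gb t n k m b0 b1) (gc t n k m h0 h1 h2 h3) (gu t n k m) =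
    (2 * b0 * h0 + t * (b0 * h1 + b1 * h0) + 2 * n * b1 * h1 - k * (2 * h2 + t * h3)) •
      gu t n k m := by
  simp only [B, ga, gb, gc, gu]
  apply Oct.ext
  · ext <;> simp <;> ring
  · ext <;> simp <;> ring

theorem Bca : B (gc t n k m h0 h1 h2 h3) (ga t n k m) (gu t n k m) =
    (t * h0 + 2 * n * h1) • gu t n k m := by
  simp only [B, ga, gb, gc, gu]
  apply Oct.ext
  · ext <;> simp <;> ring
  · ext <;> simp <;> ring

theorem Th : B (gc t n k m h0 h1 h2 h3) (ga t n k m * gb t n k m b0 b1) (gu t n k m) =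
    (2 * h0 * (- n * b1) + t * (h0 * (b0 + t * b1) + h1 * (- n * b1)) +
      2 * n * h1 * (b0 + t * b1) - k * (t * h2 + 2 * n * h3)) • gu t n k m := by
  simp only [B, ga, gb, gc, gu]
  apply Oct.ext
  · ext <;> simp <;> ring
  · ext <;> simp <;> ring

end

section
variable {K : Type*} [Field K] (t n k m b0 b1 h0 h1 h2 h3 : K)

theorem indep (hd : 4 * n - t ^ 2 ≠ 0) (hk : k ≠ 0) (hm : m ≠ 0) (q0 q1 q2 q3 q4 q5 q6 q7 : K)
    (h : q0 • gu t n k m + ga t n k m * (q1 • gu t n k m) +
      gb t n k m b0 b1 * (q2 • gu t n k m) +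
      ga t n k m * (gb t n k m b0 b1 * (q3 • gu t n k m)) +
      gc t n k m h0 h1 h2 h3 * (q4 • gu t n k m) +
      ga t n k m * (gc t n k m h0 h1 h2 h3 * (q5 • gu t n k m)) +
      gb t n k m b0 b1 * (gc t n k m h0 h1 h2 h3 * (q6 • gu t n k m)) +
      ga t n k m * (gb t n k m b0 b1 * (gc t n k m h0 h1 h2 h3 * (q7 • gu t n k m))) = 0) :
    q0 = 0 ∧ q1 = 0 ∧ q2 = 0 ∧ q3 = 0 ∧ q4 = 0 ∧ q5 = 0 ∧ q6 = 0 ∧ q7 = 0 := by
  have e1 := congrArg (fun z => (Oct.p z).re) h
  have e2 := congrArg (fun z => (Oct.p z).imI) h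
  have e3 := congrArg (fun z => (Oct.p z).imJ) h
  have e4 := congrArg (fun z => (Oct.p z).imK) h
  simp [ga, gb, gc, gu] at e1 e2 e3 e4
  have h7 : q7 = 0 := by
    have : (m * k * (4 * n - t ^ 2)) * q7 = 0 := by linear_combination - 2 * e1 - t * e2
    exact (mul_eq_zero.mp this).resolve_left (mul_ne_zero (mul_ne_zero hm hk) hd)
  have h6 : q6 = 0 := by
    have : (m * k * (4 * n - t ^ 2)) * q6 = 0 := by linear_combination 2 * n * e2 + t * e1
    exact (mul_eq_zero.mp this).resolve_left (mul_ne_zero (mul_ne_zero hm hk) hd)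
  have h5 : q5 = 0 := by
    have : (m * (4 * n - t ^ 2)) * q5 = 0 := by
      rw [h7, h6] at e3 e4
      linear_combination 2 * e3 + t * e4
    exact (mul_eq_zero.mp this).resolve_left (mul_ne_zero hm hd)
  have h4 : q4 = 0 := by
    have : (m * (4 * n - t ^ 2)) * q4 = 0 := by
      rw [h7, h6] at e3 e4
      linear_combination - 2 * n * e4 - t * e3
    exact (mul_eq_zero.mp this).resolve_left (mul_ne_zero hm hd)
  rw [h7, h6, h5, h4] at h
  simp only [zero_smul, mul_zero, add_zero] at h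
  have f1 := congrArg (fun z => (Oct.q z).re) h
  have f2 := congrArg (fun z => (Oct.q z).imI) h
  have f3 := congrArg (fun z => (Oct.q z).imJ) h
  have f4 := congrArg (fun z => (Oct.q z).imK) h
  simp [ga, gb, gc, gu] at f1 f2 f3 f4
  have h3' : q3 = 0 := by
    have : (k * (4 * n - t ^ 2)) * q3 = 0 := by linear_combination - 2 * f1 - t * f2
    exact (mul_eq_zero.mp this).resolve_left (mul_ne_zero hk hd)
  have h2' : q2 = 0 := by
    have : (k * (4 * n - t ^ 2)) * q2 = 0 := by
      rw [h3'] at f1 f2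
      linear_combination (2 * n - t ^ 2) * f2 - t * f1
    exact (mul_eq_zero.mp this).resolve_left (mul_ne_zero hk hd)
  have h1' : q1 = 0 := by
    have : (4 * n - t ^ 2) * q1 = 0 := by
      rw [h3', h2'] at f3 f4
      linear_combination 2 * f3 + t * f4
    exact (mul_eq_zero.mp this).resolve_left hd
  have h0' : q0 = 0 := by
    have : (4 * n - t ^ 2) * q0 = 0 := by
      rw [h3', h2', h1'] at f3 f4
      linear_combination (2 * n - t ^ 2) * f4 - t * f3
    exact (mul_eq_zero.mp this).resolve_left hd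
  exact ⟨h0', h1', h2', h3', h4, h5, h6, h7⟩

end

section
variable {K : Type*} [Field K] {t n k m b0 b1 h0 h1 h2 h3 : K}

/-- trace -/
def tr (y : Oct (-n) t k m) : K := 2 * (Oct.p y).re + t * (Oct.p y).imI

theorem tr_zero {y : Oct (-n) t k m} (hy : y * y = 0) : tr y = 0 := by
  by_contra hT
  have e1 := congrArg (fun z => (Oct.p z).re) hy
  have e2 := congrArg (fun z => (Oct.p z).imI) hy
  have e3 := congrArg (fun z => (Oct.p z).imJ) hy
  have e4 := congrArg (fun z => (Oct.p z).imK) hy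
  have f1 := congrArg (fun z => (Oct.q z).re) hy
  have f2 := congrArg (fun z => (Oct.q z).imI) hy
  have f3 := congrArg (fun z => (Oct.q z).imJ) hy
  have f4 := congrArg (fun z => (Oct.q z).imK) hy
  simp at e1 e2 e3 e4 f1 f2 f3 f4
  unfold tr at hT
  generalize (Oct.p y).re = p0 at *
  generalize (Oct.p y).imI = p1 at *
  generalize (Oct.p y).imJ = p2 at *
  generalize (Oct.p y).imK = p3 at *
  generalize (Oct.q y).re = q0 at *
  generalize (Oct.q y).imI = q1 at *
  generalize (Oct.q y).imJ = q2 at *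
  generalize (Oct.q y).imK = q3 at *
  have g0 : q0 = 0 := by
    have : (2 * p0 + t * p1) * q0 = 0 := by linear_combination f1
    exact (mul_eq_zero.mp this).resolve_left hT
  have g1 : q1 = 0 := by
    have : (2 * p0 + t * p1) * q1 = 0 := by linear_combination f2
    exact (mul_eq_zero.mp this).resolve_left hT
  have g2 : q2 = 0 := by
    have : (2 * p0 + t * p1) * q2 = 0 := by linear_combination f3
    exact (mul_eq_zero.mp this).resolve_left hT
  have g3 : q3 = 0 := by
    have : (2 * p0 + t * p1) * q3 = 0 := by linear_combination f4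
    exact (mul_eq_zero.mp this).resolve_left hT
  subst g0 g1 g2 g3
  have g1 : p1 = 0 := by
    have : (2 * p0 + t * p1) * p1 = 0 := by linear_combination e2
    exact (mul_eq_zero.mp this).resolve_left hT
  have g2 : p2 = 0 := by
    have : (2 * p0 + t * p1) * p2 = 0 := by linear_combination e3
    exact (mul_eq_zero.mp this).resolve_left hT
  have g3 : p3 = 0 := by
    have : (2 * p0 + t * p1) * p3 = 0 := by linear_combination e4
    exact (mul_eq_zero.mp this).resolve_left hT
  subst g1 g2 g3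
  have : p0 * p0 = 0 := by linear_combination e1
  have : p0 = 0 := by simpa using this
  apply hT
  rw [this]; ring

theorem nondeg (hd : 4 * n - t ^ 2 ≠ 0) (hk : k ≠ 0) (hm : m ≠ 0) {y : Oct (-n) t k m}
    (e0 : tr y = 0) (e1 : tr (ga t n k m * y) = 0) (e2 : tr (gb t n k m b0 b1 * y) = 0)
    (e3 : tr ((ga t n k m * gb t n k m b0 b1) * y) = 0)
    (e4 : tr (gc t n k m h0 h1 h2 h3 * y) = 0)
    (e5 : tr ((ga t n k m * gc t n k m h0 h1 h2 h3) * y) = 0)
    (e6 : tr ((gb t n k m b0 b1 * gc t n k m h0 h1 h2 h3) * y) = 0)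
    (e7 : tr (((ga t n k m * gb t n k m b0 b1) * gc t n k m h0 h1 h2 h3) * y) = 0) : y = 0 := by
  simp [tr, ga, gb, gc] at e0 e1 e2 e3 e4 e5 e6 e7
  suffices hh : (Oct.p y).re = 0 ∧ (Oct.p y).imI = 0 ∧ (Oct.p y).imJ = 0 ∧ (Oct.p y).imK = 0 ∧
      (Oct.q y).re = 0 ∧ (Oct.q y).imI = 0 ∧ (Oct.q y).imJ = 0 ∧ (Oct.q y).imK = 0 by
    obtain ⟨a1, a2, a3, a4, a5, a6, a7, a8⟩ := hh
    apply Oct.ext
    · ext <;> simp <;> assumption
    · ext <;> simp <;> assumption
  generalize (Oct.p y).re = p0 at *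
  generalize (Oct.p y).imI = p1 at *
  generalize (Oct.p y).imJ = p2 at *
  generalize (Oct.p y).imK = p3 at *
  generalize (Oct.q y).re = q0 at *
  generalize (Oct.q y).imI = q1 at *
  generalize (Oct.q y).imJ = q2 at *
  generalize (Oct.q y).imK = q3 at *
  have g1 : p1 = 0 := by
    have : (4 * n - t ^ 2) * p1 = 0 := by linear_combination t * e0 - 2 * e1
    exact (mul_eq_zero.mp this).resolve_left hd
  have g0 : p0 = 0 := by
    have : (4 * n - t ^ 2) * p0 = 0 := by linear_combination t * e1 - (t ^ 2 - 2 * n) * e0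
    exact (mul_eq_zero.mp this).resolve_left hd
  subst g1 g0
  have g3 : p3 = 0 := by
    have : (k * (4 * n - t ^ 2)) * p3 = 0 := by linear_combination 2 * e3 - t * e2
    exact (mul_eq_zero.mp this).resolve_left (mul_ne_zero hk hd)
  have g2 : p2 = 0 := by
    have : (k * (4 * n - t ^ 2)) * p2 = 0 := by linear_combination 2 * n * e2 - t * e3
    exact (mul_eq_zero.mp this).resolve_left (mul_ne_zero hk hd)
  subst g2 g3
  have r1 : q1 = 0 := by
    have : (m * (4 * n - t ^ 2)) * q1 = 0 := by linear_combination 2 * e5 - t * e4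
    exact (mul_eq_zero.mp this).resolve_left (mul_ne_zero hm hd)
  have r0 : q0 = 0 := by
    have : (m * (4 * n - t ^ 2)) * q0 = 0 := by linear_combination 2 * n * e4 - t * e5
    exact (mul_eq_zero.mp this).resolve_left (mul_ne_zero hm hd)
  subst r1 r0
  have r3 : q3 = 0 := by
    have : (m * k * (4 * n - t ^ 2)) * q3 = 0 := by linear_combination - 2 * e7 + t * e6
    exact (mul_eq_zero.mp this).resolve_left (mul_ne_zero (mul_ne_zero hm hk) hd)
  have r2 : q2 = 0 := by
    have : (m * k * (4 * n - t ^ 2)) * q2 = 0 := by linear_combination - 2 * n * e6 + t * e7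
    exact (mul_eq_zero.mp this).resolve_left (mul_ne_zero (mul_ne_zero hm hk) hd)
  exact ⟨rfl, rfl, rfl, rfl, rfl, rfl, r2, r3⟩

end

end Model

end Pool.Agent.AltRing
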