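import Pool.Agent.Lib.MP_a8cdcd_al.Basic

/-!
# Octonion algebras by the Cayley-Dickson process
-/

set_option autoImplicit false
set_option linter.unusedSimpArgs false
set_option linter.unusedVariables false
set_option linter.unusedSectionVars false

open Quaternion

namespace Pool.Agent.AltRing

variable {K : Type*} [CommRing K]

/-- The Cayley-Dickson double of a quaternion algebra. -/
def Oct (c₁ c₂ c₃ m : K) : Type _ := ℍ[K,c₁,c₂,c₃] × ℍ[K,c₁,c₂,c₃]

namespace Oct

variable {c₁ c₂ c₃ m : K}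

instance : AddCommGroup (Oct c₁ c₂ c₃ m) :=
  inferInstanceAs (AddCommGroup (ℍ[K,c₁,c₂,c₃] × ℍ[K,c₁,c₂,c₃]))

instance : Module K (Oct c₁ c₂ c₃ m) :=
  inferInstanceAs (Module K (ℍ[K,c₁,c₂,c₃] × ℍ[K,c₁,c₂,c₃]))

/-- constructor -/
def mk (p q : ℍ[K,c₁,c₂,c₃]) : Oct c₁ c₂ c₃ m := (p, q)
/-- first component -/
def p (x : Oct c₁ c₂ c₃ m) : ℍ[K,c₁,c₂,c₃] := Prod.fst x
/-- second component -/
def q (x : Oct c₁ c₂ c₃ m) : ℍ[K,c₁,c₂,c₃] := Prod.snd x

theorem ext {x y : Oct c₁ c₂ c₃ m} (h1 : x.p = y.p) (h2 : x.q = y.q) : x = y := Prod.ext h1 h2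

@[simp] theorem p_mk (a b : ℍ[K,c₁,c₂,c₃]) : (mk a b : Oct c₁ c₂ c₃ m).p = a := rfl
@[simp] theorem q_mk (a b : ℍ[K,c₁,c₂,c₃]) : (mk a b : Oct c₁ c₂ c₃ m).q = b := rfl
@[simp] theorem p_add (x y : Oct c₁ c₂ c₃ m) : (x + y).p = x.p + y.p := rfl
@[simp] theorem q_add (x y : Oct c₁ c₂ c₃ m) : (x + y).q = x.q + y.q := rfl
@[simp] theorem p_sub (x y : Oct c₁ c₂ c₃ m) : (x - y).p = x.p - y.p := rfl
@[simp] theorem q_sub (x y : Oct c₁ c₂ c₃ m) : (x - y).q = x.q - y.q := rfl
@[simp] theorem p_neg (x : Oct c₁ c₂ c₃ m) : (-x).p = -x.p := rfl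
@[simp] theorem q_neg (x : Oct c₁ c₂ c₃ m) : (-x).q = -x.q := rfl
@[simp] theorem p_zero : (0 : Oct c₁ c₂ c₃ m).p = 0 := rfl
@[simp] theorem q_zero : (0 : Oct c₁ c₂ c₃ m).q = 0 := rfl
@[simp] theorem p_smul (k : K) (x : Oct c₁ c₂ c₃ m) : (k • x).p = k • x.p := rfl
@[simp] theorem q_smul (k : K) (x : Oct c₁ c₂ c₃ m) : (k • x).q = k • x.q := rfl

instance : Mul (Oct c₁ c₂ c₃ m) where
  mul x y := mk (x.p * y.p + m • (star y.q * x.q)) (y.q * x.p + x.q * star y.p)

@[simp] theorem p_mul (x y : Oct c₁ c₂ c₃ m) : (x * y).p = x.p * y.p + m • (star y.q * x.q) := rfl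
@[simp] theorem q_mul (x y : Oct c₁ c₂ c₃ m) : (x * y).q = y.q * x.p + x.q * star y.p := rfl

instance : NonUnitalNonAssocRing (Oct c₁ c₂ c₃ m) :=
  { (inferInstance : AddCommGroup (Oct c₁ c₂ c₃ m)), (inferInstance : Mul (Oct c₁ c₂ c₃ m)) with
    left_distrib := fun x y z => by
      apply ext
      · simp only [p_mul, p_add, q_add, star_add, mul_add, add_mul, smul_add]; abel
      · simp only [q_mul, p_add, q_add, star_add, mul_add, add_mul]; abel
    right_distrib := fun x y z => by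
      apply ext
      · simp only [p_mul, p_add, q_add, star_add, mul_add, add_mul, smul_add]; abel
      · simp only [q_mul, p_add, q_add, star_add, mul_add, add_mul]; abel
    zero_mul := fun x => by
      apply ext <;> simp
    mul_zero := fun x => by
      apply ext <;> simp }

theorem smul_mul (k : K) (x y : Oct c₁ c₂ c₃ m) : (k • x) * y = k • (x * y) := by
  apply ext
  · simp only [p_mul, p_smul, q_smul, smul_mul_assoc, mul_smul_comm, smul_add, smul_comm k m]
  · simp only [q_mul, p_smul, q_smul, smul_mul_assoc, mul_smul_comm, smul_add]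

theorem mul_smul (k : K) (x y : Oct c₁ c₂ c₃ m) : x * (k • y) = k • (x * y) := by
  have h : ∀ z : ℍ[K,c₁,c₂,c₃], star (k • z) = k • star z := by
    intro z; ext <;> simp
  apply ext
  · simp only [p_mul, p_smul, q_smul, smul_mul_assoc, mul_smul_comm, smul_add, smul_comm k m, h]
  · simp only [q_mul, p_smul, q_smul, smul_mul_assoc, mul_smul_comm, smul_add, h]

set_option maxHeartbeats 4000000 in
instance : IsAlt (Oct c₁ c₂ c₃ m) where
  left x y := by
    apply ext
    · ext <;> simp <;> ring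
    · ext <;> simp <;> ring
  right x y := by
    apply ext
    · ext <;> simp <;> ring
    · ext <;> simp <;> ring

end Oct

end Pool.Agent.AltRing
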