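import Pool.Agent.Lib.MP_a8cdcd_al.Assoc

/-!
# The kernel of the map to the free associative ring
-/

set_option autoImplicit false
set_option linter.unusedSimpArgs false
set_option linter.unusedVariables false
set_option linter.unusedSectionVars false

namespace Pool.Agent.AltRing

variable {A : Type*} [NonUnitalNonAssocRing A] [IsAlt A]

theorem mem_of_free {a b c : A} (hG : Gen a b c) {D : AddSubgroup A}
    (hD : ∀ w, ∀ y ∈ D, w * y ∈ D ∧ y * w ∈ D) (hu : as a b c ∈ D)
    (ψ : A →ₙ+* FreeAlgebra ℤ (Fin 3)) (h0 : ψ a = FreeAlgebra.ι ℤ 0)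
    (h1 : ψ b = FreeAlgebra.ι ℤ 1) (h2 : ψ c = FreeAlgebra.ι ℤ 2) {x : A} (hx : ψ x = 0) :
    x ∈ D := by
  let I : TwoSidedIdeal A := TwoSidedIdeal.mk' (D : Set A) D.zero_mem (fun h1 h2 => D.add_mem h1 h2)
    (fun h => D.neg_mem h) (fun {w y} h => (hD w y h).1) (fun {y w} h => (hD w y h).2)
  have hI : ∀ y, y ∈ I ↔ y ∈ D := fun y => TwoSidedIdeal.mem_mk' _ _ _ _ _ _ _
  let Qt := I.ringCon.Quotient
  have hassoc : ∀ x y z : Qt, x * y * z = x * (y * z) := by
    intro x y z
    induction x using Quotient.inductionOn with | _ x => ?_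
    induction y using Quotient.inductionOn with | _ y => ?_
    induction z using Quotient.inductionOn with | _ z => ?_
    have : ((x * y * z : A) : I.ringCon.Quotient) = ((x * (y * z) : A) : I.ringCon.Quotient) := by
      rw [RingCon.eq, TwoSidedIdeal.rel_iff, hI]
      exact as_mem hG hD hu x y z
    exact this
  let _ : NonUnitalRing Qt :=
    { (inferInstance : NonUnitalNonAssocRing I.ringCon.Quotient) with mul_assoc := hassoc }
  let π : A → Qt := fun x => (x : I.ringCon.Quotient)
  have πadd : ∀ x y, π (x + y) = π x + π y := fun x y => rfl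
  have πmul : ∀ x y, π (x * y) = π x * π y := fun x y => rfl
  have πneg : ∀ x, π (-x) = - π x := fun x => rfl
  have π0 : π 0 = 0 := rfl
  let L : FreeAlgebra ℤ (Fin 3) →ₐ[ℤ] Unitization ℤ Qt :=
    FreeAlgebra.lift ℤ (fun i => (Unitization.inr (![π a, π b, π c] i) : Unitization ℤ Qt))
  have key : ∀ y, L (ψ y) = (Unitization.inr (π y) : Unitization ℤ Qt) := by
    apply hG
    · rw [h0, FreeAlgebra.lift_ι_apply]; rfl
    · rw [h1, FreeAlgebra.lift_ι_apply]; rfl
    · rw [h2, FreeAlgebra.lift_ι_apply]; rfl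
    · rw [map_zero, map_zero, π0]; rfl
    · intro x y hx hy
      rw [map_add, map_add, hx, hy, πadd, Unitization.inr_add]
    · intro x hx
      rw [map_neg, map_neg, hx, πneg, Unitization.inr_neg]
    · intro x y hx hy
      rw [map_mul, map_mul, hx, hy, πmul, Unitization.inr_mul]
  have h3 := key x
  rw [hx, map_zero] at h3
  have h4 : π x = 0 := by
    apply Unitization.inr_injective (R := ℤ)
    rw [← h3, Unitization.inr_zero]
  have h5 : ((x : A) : I.ringCon.Quotient) = ((0 : A) : I.ringCon.Quotient) := h4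
  rw [RingCon.eq, TwoSidedIdeal.rel_iff, hI, sub_zero] at h5
  exact h5

end Pool.Agent.AltRing
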