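import Pool.Agent.Lib.MP_a8cdcd_al.U

/-!
# The operator Theta
-/

set_option autoImplicit false
set_option linter.unusedSimpArgs false
set_option linter.unusedVariables false
set_option linter.unusedSectionVars false

namespace Pool.Agent.AltRing

variable {A : Type*} [NonUnitalNonAssocRing A]

/-- the additive group generated by three elements -/
def Lc (a b c : A) : AddSubgroup A := AddSubgroup.closure {a, b, c}

theorem mem_Lc1 (a b c : A) : a ∈ Lc a b c := AddSubgroup.subset_closure (by simp)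
theorem mem_Lc2 (a b c : A) : b ∈ Lc a b c := AddSubgroup.subset_closure (by simp)
theorem mem_Lc3 (a b c : A) : c ∈ Lc a b c := AddSubgroup.subset_closure (by simp)

theorem Lc_neg (a b c : A) : Lc (-a) b c = Lc a b c := by
  apply le_antisymm <;> unfold Lc <;> rw [AddSubgroup.closure_le] <;>
    simp only [Set.insert_subset_iff, Set.singleton_subset_iff, SetLike.mem_coe]
  · exact ⟨neg_mem (mem_Lc1 a b c), mem_Lc2 a b c, mem_Lc3 a b c⟩
  · refine ⟨?_, mem_Lc2 (-a) b c, mem_Lc3 (-a) b c⟩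
    have := neg_mem (mem_Lc1 (-a) b c)
    rwa [neg_neg] at this

theorem Lc_rot (a b c : A) : Lc b c a = Lc a b c := by
  unfold Lc
  congr 1
  ext x
  simp only [Set.mem_insert_iff, Set.mem_singleton_iff]
  tauto

variable [IsAlt A]

theorem u_mem (a b c : A) : as a b c ∈ GI (Lc a b c) := u_mem_GI a b c

section
variable {L : AddSubgroup A} {x g h k : A}

theorem Kill.V_B (hx : Kill L x) (hg : g ∈ L) (hh : h ∈ L) (hk : k ∈ L) :
    V g (B h k x) = B h k (V g x) := by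
  rw [B_eq, B_eq, V_sub, V_sub, hx.V_N hg (add_mem hh hk), hx.V_N hg hh, hx.V_N hg hk]

theorem Kill.N_B (hx : Kill L x) (hg : g ∈ L) (hh : h ∈ L) (hk : k ∈ L) :
    N g (B h k x) = B h k (N g x) := by
  rw [B_eq, B_eq, N_sub, N_sub, hx.N_N hg (add_mem hh hk), hx.N_N hg hh, hx.N_N hg hk]

theorem Kill.B_B (hx : Kill L x) {g' : A} (hg : g ∈ L) (hg' : g' ∈ L) (hh : h ∈ L) (hk : k ∈ L) :
    B g g' (B h k x) = B h k (B g g' x) := by
  rw [B_eq g g', B_eq g g', B_sub, B_sub, hx.N_B (add_mem hg hg') hh hk, hx.N_B hg hh hk,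
    hx.N_B hg' hh hk]

end

section
variable {a b c x : A}

theorem N_ab (hx : P' a b x = 0) : N (a * b) x = N a (N b x) := by
  have h1 : x * (a * b) = (x * b) * a := by
    have := hx
    rw [P'_swap, neg_eq_zero] at this
    exact (sub_eq_zero.mp this).symm
  simp only [N]
  rw [h1, mouf_m]

theorem V_ab (hx : P' a b x = 0) : V (a * b) x = V a (V b x) - B a b x := by
  rw [V_mul, hx, add_zero]

theorem V_ab_mem (hx : x ∈ GI (Lc a b c)) : V (a * b) x ∈ GI (Lc a b c) := by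
  rw [V_ab ((GI.kill hx) a (mem_Lc1 a b c) b (mem_Lc2 a b c)).2]
  exact sub_mem (GI.V (GI.V hx (mem_Lc2 a b c)) (mem_Lc1 a b c))
    (GI.B hx (mem_Lc1 a b c) (mem_Lc2 a b c))

theorem N_ab_mem (hx : x ∈ GI (Lc a b c)) : N (a * b) x ∈ GI (Lc a b c) := by
  rw [N_ab ((GI.kill hx) a (mem_Lc1 a b c) b (mem_Lc2 a b c)).2]
  exact GI.N (GI.N hx (mem_Lc2 a b c)) (mem_Lc1 a b c)

theorem GI_le (hx : x ∈ GI (Lc a b c)) : x ∈ GI (Lc a b (c + a * b)) := by
  have ha := mem_Lc1 a b c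
  have hb := mem_Lc2 a b c
  have hc := mem_Lc3 a b c
  apply GI.coind (fun x => x ∈ GI (Lc a b c)) _ _ hx
  · intro x hx
    have k := GI.kill hx
    have k1 : G (Lc a b c) 1 x := hx 1
    apply kill_three
    · exact (k a ha b hb).1
    · exact (k a ha b hb).2
    · rw [P_add2, (k b hb c hc).1, P_b_ab, k1.P_mul_left ha hb hb, as_self23]
      simp
    · rw [P'_add2, (k b hb c hc).2, P'_b_ab, (k a ha b hb).2]
      simp
    · rw [P_add1, (k c hc a ha).1, P_swap, P_a_ab, (k a ha b hb).1]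
      simp
    · rw [P'_add1, (k c hc a ha).2, P'_swap, P'_a_ab, k1.P'_mul_right ha hb ha, as_self13]
      simp
  · intro x hx k hk
    induction hk using AddSubgroup.closure_induction with
    | mem y hy =>
      simp only [Set.mem_insert_iff, Set.mem_singleton_iff] at hy
      rcases hy with rfl | rfl | rfl
      · exact GI.V hx ha
      · exact GI.V hx hb
      · rw [V_add1]
        exact add_mem (GI.V hx hc) (V_ab_mem hx)
    | zero => rw [V_zero1]; exact zero_mem _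
    | add y z _ _ h1 h2 => rw [V_add1]; exact add_mem h1 h2
    | neg y _ h1 => rw [V_neg1]; exact neg_mem h1

theorem GI_eq (a b c : A) : GI (Lc a b (c + a * b)) = GI (Lc a b c) := by
  apply le_antisymm
  · intro x hx
    rw [← Lc_neg] at hx
    have h1 := GI_le hx
    rw [Lc_neg] at h1
    have : c + a * b + -a * b = c := by rw [neg_mul]; abel
    rwa [this] at h1
  · intro x hx
    exact GI_le hx

/-- the operator `Theta` -/
def Th (a b c x : A) : A := B c (a * b) x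

theorem Th_eq (hx : x ∈ GI (Lc a b c)) :
    Th a b c x = N (c + a * b) x - N c x - N a (N b x) := by
  rw [Th, B_eq, N_ab ((GI.kill hx) a (mem_Lc1 a b c) b (mem_Lc2 a b c)).2]

theorem NT_mem (hx : x ∈ GI (Lc a b c)) : N (c + a * b) x ∈ GI (Lc a b c) := by
  rw [← GI_eq] at hx ⊢
  exact GI.N hx (mem_Lc3 _ _ _)

theorem Th_mem (hx : x ∈ GI (Lc a b c)) : Th a b c x ∈ GI (Lc a b c) := by
  rw [Th_eq hx]
  exact sub_mem (sub_mem (NT_mem hx) (GI.N hx (mem_Lc3 _ _ _)))
    (GI.N (GI.N hx (mem_Lc2 _ _ _)) (mem_Lc1 _ _ _))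

theorem Th_add (a b c x y : A) : Th a b c (x + y) = Th a b c x + Th a b c y := B_add _ _ _ _
theorem Th_zero (a b c : A) : Th a b c 0 = 0 := B_zero _ _

theorem Va_Th (hx : x ∈ GI (Lc a b c)) : V a (Th a b c x) = Th a b c (V a x) := by
  have ha := mem_Lc1 a b c
  have hb := mem_Lc2 a b c
  have hc := mem_Lc3 a b c
  have hx1 : x ∈ GI (Lc a b (c + a * b)) := by rw [GI_eq]; exact hx
  rw [Th_eq hx, Th_eq (GI.V hx ha), V_sub, V_sub, (GI.kill hx1).V_N (mem_Lc1 _ _ _) (mem_Lc3 _ _ _),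
    (GI.kill hx).V_N ha hc, (GI.kill (GI.N hx hb)).V_N ha ha, (GI.kill hx).V_N ha hb]

theorem Vb_Th (hx : x ∈ GI (Lc a b c)) : V b (Th a b c x) = Th a b c (V b x) := by
  have ha := mem_Lc1 a b c
  have hb := mem_Lc2 a b c
  have hc := mem_Lc3 a b c
  have hx1 : x ∈ GI (Lc a b (c + a * b)) := by rw [GI_eq]; exact hx
  rw [Th_eq hx, Th_eq (GI.V hx hb), V_sub, V_sub, (GI.kill hx1).V_N (mem_Lc2 _ _ _) (mem_Lc3 _ _ _),
    (GI.kill hx).V_N hb hc, (GI.kill (GI.N hx hb)).V_N hb ha, (GI.kill hx).V_N hb hb]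

theorem Na_Th (hx : x ∈ GI (Lc a b c)) : N a (Th a b c x) = Th a b c (N a x) := by
  have ha := mem_Lc1 a b c
  have hb := mem_Lc2 a b c
  have hc := mem_Lc3 a b c
  have hx1 : x ∈ GI (Lc a b (c + a * b)) := by rw [GI_eq]; exact hx
  rw [Th_eq hx, Th_eq (GI.N hx ha), N_sub, N_sub, (GI.kill hx1).N_N (mem_Lc1 _ _ _) (mem_Lc3 _ _ _),
    (GI.kill hx).N_N ha hc, (GI.kill hx).N_N hb ha]

theorem Nb_Th (hx : x ∈ GI (Lc a b c)) : N b (Th a b c x) = Th a b c (N b x) := by
  have ha := mem_Lc1 a b c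
  have hb := mem_Lc2 a b c
  have hc := mem_Lc3 a b c
  have hx1 : x ∈ GI (Lc a b (c + a * b)) := by rw [GI_eq]; exact hx
  rw [Th_eq hx, Th_eq (GI.N hx hb), N_sub, N_sub, (GI.kill hx1).N_N (mem_Lc2 _ _ _) (mem_Lc3 _ _ _),
    (GI.kill hx).N_N hb hc, (GI.kill (GI.N hx hb)).N_N hb ha]

theorem Bab_Th (hx : x ∈ GI (Lc a b c)) : B a b (Th a b c x) = Th a b c (B a b x) := by
  have ha := mem_Lc1 a b c
  have hb := mem_Lc2 a b c
  have hc := mem_Lc3 a b c
  have hx1 : x ∈ GI (Lc a b (c + a * b)) := by rw [GI_eq]; exact hx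
  rw [Th_eq hx, Th_eq (GI.B hx ha hb), B_sub, B_sub,
    ← (GI.kill hx1).N_B (mem_Lc3 _ _ _) (mem_Lc1 _ _ _) (mem_Lc2 _ _ _),
    ← (GI.kill hx).N_B hc ha hb, ← (GI.kill (GI.N hx hb)).N_B ha ha hb, ← (GI.kill hx).N_B hb ha hb]

theorem Vc_Th (hx : x ∈ GI (Lc a b c)) : V c (Th a b c x) = Th a b c (V c x) := by
  have ha := mem_Lc1 a b c
  have hb := mem_Lc2 a b c
  have hc := mem_Lc3 a b c
  have hx1 : x ∈ GI (Lc a b (c + a * b)) := by rw [GI_eq]; exact hx
  have key : V c (N (c + a * b) x) = N (c + a * b) (V c x) := by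
    have e1 : ∀ y ∈ GI (Lc a b c), V c y = V (c + a * b) y - V a (V b y) + B a b y := by
      intro y hy
      rw [V_add1, V_ab ((GI.kill hy) a ha b hb).2]
      abel
    rw [e1 _ (NT_mem hx), e1 _ hx, N_add, N_sub, (GI.kill hx1).V_N (mem_Lc3 _ _ _) (mem_Lc3 _ _ _),
      ← (GI.kill hx1).N_B (mem_Lc3 _ _ _) (mem_Lc1 _ _ _) (mem_Lc2 _ _ _),
      (GI.kill hx1).V_N (mem_Lc2 _ _ _) (mem_Lc3 _ _ _),
      (GI.kill (GI.V hx1 (mem_Lc2 _ _ _))).V_N (mem_Lc1 _ _ _) (mem_Lc3 _ _ _)]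
  rw [Th_eq hx, Th_eq (GI.V hx hc), V_sub, V_sub, key,
    (GI.kill hx).V_N hc hc, (GI.kill (GI.N hx hb)).V_N hc ha, (GI.kill hx).V_N hc hb]

theorem Th_rot (hx : x ∈ GI (Lc a b c)) :
    Th a b c x - Th b c a x = V a (B b c x) - V c (B a b x) := by
  have ha := mem_Lc1 a b c
  have hb := mem_Lc2 a b c
  have hc := mem_Lc3 a b c
  have h1 := (GI.kill hx).P_mul_right hc ha hb
  have h2 := (GI.kill hx).P_mul_right hc hb ha
  have h3 := ((GI.kill hx) a ha b hb).2
  have h4 := ((GI.kill hx) a ha c hc).2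
  simp only [Th]
  linear_combination (norm := (simp only [V, N, B, P, P', f, as_def, mul_sub, sub_mul, mul_add, add_mul, mul_neg, neg_mul, mul_zero, zero_mul, neg_zero]; abel)) - V_mul_left a b (x * c) - b * V_mul_right a c x - V_mul_left a c (x * b)
    - c * V_mul_right a b x + V_mul_left c a (x * b) + a * V_mul_right c b x + h1
    + V_mul_left c b (x * a) + b * V_mul_right c a x + h2 + c * h3 - c * P'_eq a b x + b * h4
    - b * P'_eq a c x - b * as_swap23 a x c + b * as_cyc c x a + b * as_cyc x a c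
    - c * as_swap23 a x b - a * as_cyc b c x - P_swap a b (x * c) - as_mul3r b c a x
    + f_swap12 b c a x - f_swap23 c b a x + as_mul3r c a b x + b * as_swap12 a c x
    + as_cyc a b c * x + as_cyc c a b * x - x * as_swap23 c a b

theorem Nc_Th (hx : x ∈ GI (Lc a b c)) : N c (Th a b c x) = Th a b c (N c x) := by
  have ha := mem_Lc1 a b c
  have hb := mem_Lc2 a b c
  have hc := mem_Lc3 a b c
  have e : ∀ y ∈ GI (Lc a b c), Th a b c y = Th b c a y + V a (B b c y) - V c (B a b y) := by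
    intro y hy
    have := Th_rot hy
    linear_combination (norm := abel) this
  have h1 : N c (Th b c a x) = Th b c a (N c x) := Nb_Th (by rw [Lc_rot]; exact hx)
  rw [e _ hx, e _ (GI.N hx hc), N_sub, N_add, h1, ← (GI.kill (GI.B hx hb hc)).V_N ha hc,
    ← (GI.kill (GI.B hx ha hb)).V_N hc hc, (GI.kill hx).N_B hc hb hc, (GI.kill hx).N_B hc ha hb]

theorem Bbc_Th (hx : x ∈ GI (Lc a b c)) : B b c (Th a b c x) = Th a b c (B b c x) := by
  have ha := mem_Lc1 a b c
  have hb := mem_Lc2 a b c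
  have hc := mem_Lc3 a b c
  have e : ∀ y ∈ GI (Lc a b c), Th a b c y = Th b c a y + V a (B b c y) - V c (B a b y) := by
    intro y hy
    have := Th_rot hy
    linear_combination (norm := abel) this
  have h1 : B b c (Th b c a x) = Th b c a (B b c x) := Bab_Th (by rw [Lc_rot]; exact hx)
  rw [e _ hx, e _ (GI.B hx hb hc), B_sub, B_add, h1, ← (GI.kill (GI.B hx hb hc)).V_B ha hb hc,
    ← (GI.kill (GI.B hx ha hb)).V_B hc hb hc, (GI.kill hx).B_B hb hc ha hb]

theorem Bca_Th (hx : x ∈ GI (Lc a b c)) : B c a (Th a b c x) = Th a b c (B c a x) := by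
  have ha := mem_Lc1 a b c
  have hb := mem_Lc2 a b c
  have hc := mem_Lc3 a b c
  have hx' : x ∈ GI (Lc c a b) := by rw [← Lc_rot]; exact hx
  have e : ∀ y ∈ GI (Lc a b c), Th a b c y = Th c a b y - V c (B a b y) + V b (B c a y) := by
    intro y hy
    have hy' : y ∈ GI (Lc c a b) := by rw [← Lc_rot]; exact hy
    have := Th_rot hy'
    linear_combination (norm := abel) - this
  have h1 : B c a (Th c a b x) = Th c a b (B c a x) := Bab_Th hx'
  rw [e _ hx, e _ (GI.B hx hc ha), B_add, B_sub, h1, ← (GI.kill (GI.B hx ha hb)).V_B hc hc ha,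
    ← (GI.kill (GI.B hx hc ha)).V_B hb hc ha, (GI.kill hx).B_B hc ha ha hb]

end

end Pool.Agent.AltRing
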