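import Pool.Agent.Lib.MP_a8cdcd_al.G

/-!
# The associator of the generators lies in all `G_n`
-/

set_option autoImplicit false
set_option linter.unusedSimpArgs false
set_option linter.unusedVariables false
set_option linter.unusedSectionVars false

namespace Pool.Agent.AltRing

variable {A : Type*} [NonUnitalNonAssocRing A] [IsAlt A]

/-- `f` through commutators -/
theorem f_comm (w x y z : A) :
    f w x y z = as (w * x - x * w) y z + as (y * z - z * y) w x := by
  have k1 := comm_as w x y z
  have k2 := comm_as y z w x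
  rw [k1, k2]
  linear_combination (norm := (simp only [V, N, B, P, P', f, as_def, mul_sub, sub_mul, mul_add, add_mul, mul_neg, neg_mul, mul_zero, zero_mul, neg_zero]; abel)) - three_f w x y z - (2 : ℤ) • f_cyc2 w x y z - x * as_cyc w y z + as_cyc w y z * x
    - z * as_cyc y w x + as_cyc y w x * z

/-- powers: `pw a n = a ^ (n+1)` -/
def pw (a : A) : ℕ → A
  | 0 => a
  | n + 1 => a * pw a n

theorem pw_comm (a : A) (n : ℕ) : pw a n * a = a * pw a n := by
  induction n with
  | zero => rfl
  | succ n ih =>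
    simp only [pw] at ih ⊢
    rw [flex, ih]

theorem as_pw (a w : A) (n : ℕ) : as (pw a n) w a = 0 := by
  induction n with
  | zero => exact as_self13 a w
  | succ n ih =>
    have h := f_self14 (pw a n) w a
    simp only [f, ih, as_self13] at h
    simp only [pw]
    simpa using h

theorem f_pw (a y z : A) (n : ℕ) : f a (pw a n) y z = 0 := by
  rw [f_comm, pw_comm, sub_self, as_zero1, zero_add, as_cyc, as_cyc, as_pw]

theorem pw_T1 (a y z : A) (n : ℕ) :
    as (pw a (n + 1)) y z = pw a n * as a y z + as (pw a n) y z * a := by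
  have h := f_pw a y z n
  simp only [f] at h
  simp only [pw]
  linear_combination (norm := abel) h

theorem pw_T2 (a y z : A) (n : ℕ) :
    as (pw a (n + 1)) y z = a * as (pw a n) y z + as a y z * pw a n := by
  have h := f_pw a y z n
  rw [f_swap12, neg_eq_zero] at h
  simp only [f] at h
  simp only [pw]
  rw [pw_comm] at h
  linear_combination (norm := abel) h

theorem pw_R1 (a y z : A) : as (pw a 1) y z = V a (as a y z) := by
  rw [pw_T2 a y z 0]
  simp only [pw, V]

theorem pw_R2 (a y z : A) (n : ℕ) : as (pw a (n + 2)) y z =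
    V a (as (pw a (n + 1)) y z) - N a (as (pw a n) y z) := by
  have h1 := pw_T2 a y z (n + 1)
  have h2 := pw_T2 a y z n
  have h3 : as (as a y z) (pw a n) a = 0 := by
    rw [as_swap12, as_pw, neg_zero]
  have h4 : as a y z * pw a n * a = as a y z * pw a (n + 1) := by
    have := sub_eq_zero.mp h3
    rw [this, pw_comm]
    simp only [pw]
  rw [h1, ← h4]
  have h5 : as (pw a (n + 1)) y z * a = a * (as (pw a n) y z * a) + as a y z * pw a n * a := by
    rw [h2, add_mul, flex]
  simp only [V, N]
  linear_combination (norm := abel) - h5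

theorem as_V1 (a h w : A) : V a (as a h w) = as a h (V a w) := by
  simp only [V]
  rw [as_add3, as_l1, as_r1, add_comm]

theorem as_N1 (a h w : A) : N a (as a h w) = as a h (N a w) := by
  simp only [N]
  rw [as_l1, as_r1, flex]

theorem as_pw_range (a h w : A) (n : ℕ) :
    (∃ w', as (pw a n) h w = as a h w') ∧ (∃ w', as (pw a (n + 1)) h w = as a h w') := by
  induction n with
  | zero => exact ⟨⟨w, rfl⟩, ⟨V a w, by rw [pw_R1, as_V1]⟩⟩
  | succ n ih =>
    refine ⟨ih.2, ?_⟩
    obtain ⟨w1, h1⟩ := ih.1
    obtain ⟨w2, h2⟩ := ih.2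
    exact ⟨V a w2 - N a w1, by rw [pw_R2, h1, h2, as_V1, as_N1, as_sub3]⟩

theorem as_pw_pw_range (a b w : A) (i j : ℕ) : ∃ w', as (pw a i) (pw b j) w = as a b w' := by
  obtain ⟨w1, h1⟩ := (as_pw_range a (pw b j) w i).1
  obtain ⟨w2, h2⟩ := (as_pw_range b a w1 j).1
  exact ⟨w2, by rw [h1, as_swap12, h2, as_swap12, neg_neg]⟩

/-- the elements `z_{ijk}` -/
def Z (a b c : A) (i j k : ℕ) : A := as (pw a i) (pw b j) (pw c k)

theorem Z_kill (a b c : A) (i j k : ℕ) : Kill (AddSubgroup.closure {a, b, c}) (Z a b c i j k) := by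
  have e1 : ∃ w, Z a b c i j k = as a b w := as_pw_pw_range a b _ i j
  have e2 : ∃ w, Z a b c i j k = as b c w := by
    obtain ⟨w, hw⟩ := as_pw_pw_range b c (pw a i) j k
    exact ⟨w, by rw [Z, as_cyc, hw]⟩
  have e3 : ∃ w, Z a b c i j k = as c a w := by
    obtain ⟨w, hw⟩ := as_pw_pw_range c a (pw b j) k i
    exact ⟨w, by rw [Z, as_cyc, as_cyc, hw]⟩
  obtain ⟨w1, h1⟩ := e1
  obtain ⟨w2, h2⟩ := e2
  obtain ⟨w3, h3⟩ := e3
  apply kill_three
  · rw [h1, P_as]
  · rw [h1, P'_as]
  · rw [h2, P_as]
  · rw [h2, P'_as]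
  · rw [h3, P_as]
  · rw [h3, P'_as]

theorem Z_a1 (a b c : A) (j k : ℕ) : Z a b c 1 j k = V a (Z a b c 0 j k) := pw_R1 _ _ _
theorem Z_a2 (a b c : A) (i j k : ℕ) :
    Z a b c (i + 2) j k = V a (Z a b c (i + 1) j k) - N a (Z a b c i j k) := pw_R2 _ _ _ _
theorem Z_b1 (a b c : A) (i k : ℕ) : Z a b c i 1 k = V b (Z a b c i 0 k) := by
  simp only [Z]
  rw [as_cyc, pw_R1, as_cyc (pw a i)]
  rfl
theorem Z_b2 (a b c : A) (i j k : ℕ) :
    Z a b c i (j + 2) k = V b (Z a b c i (j + 1) k) - N b (Z a b c i j k) := by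
  simp only [Z]
  rw [as_cyc, pw_R2, as_cyc (pw a i), as_cyc (pw a i)]
theorem Z_c1 (a b c : A) (i j : ℕ) : Z a b c i j 1 = V c (Z a b c i j 0) := by
  simp only [Z]
  rw [← as_cyc, pw_R1, ← as_cyc (pw c 0)]
  rfl
theorem Z_c2 (a b c : A) (i j k : ℕ) :
    Z a b c i j (k + 2) = V c (Z a b c i j (k + 1)) - N c (Z a b c i j k) := by
  simp only [Z]
  rw [← as_cyc, pw_R2, ← as_cyc (pw c (k + 1)), ← as_cyc (pw c k)]

section
variable {L : AddSubgroup A}

/-- the group generated by the `N_g w`, `w ∈ G_{r+1}` -/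
def NN (L : AddSubgroup A) (r : ℕ) : AddSubgroup A :=
  AddSubgroup.closure {y | ∃ g ∈ L, ∃ w, G L (r + 1) w ∧ y = N g w}

theorem NN.G {r : ℕ} {y : A} (hy : y ∈ NN L r) : G L r y := by
  induction hy using AddSubgroup.closure_induction with
  | mem y hy =>
    obtain ⟨g, hg, w, hw, rfl⟩ := hy
    exact hw.N hg
  | zero => exact G.zero r
  | add y z _ _ h1 h2 => exact h1.add h2
  | neg y _ h1 => exact h1.neg

theorem NN.mk {r : ℕ} {g w : A} (hg : g ∈ L) (hw : AltRing.G L (r + 1) w) : N g w ∈ NN L r :=
  AddSubgroup.subset_closure ⟨g, hg, w, hw, rfl⟩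

theorem NN.V {r : ℕ} {y : A} (hy : y ∈ NN L (r + 1)) {k : A} (hk : k ∈ L) : V k y ∈ NN L r := by
  induction hy using AddSubgroup.closure_induction with
  | mem y hy =>
    obtain ⟨g, hg, w, hw, rfl⟩ := hy
    rw [hw.kill.V_N hk hg]
    exact NN.mk hg (hw.V hk)
  | zero => rw [V_zero]; exact zero_mem _
  | add y z _ _ h1 h2 => rw [V_add]; exact add_mem h1 h2
  | neg y _ h1 => rw [V_neg]; exact neg_mem h1

theorem NN.step {g : A} (hg : g ∈ L) (e : ℕ → A) (d : A) (R : ℕ)
    (h1 : e 1 = AltRing.V g (e 0)) (h2 : ∀ n, e (n + 2) = AltRing.V g (e (n + 1)) - N g (e n))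
    (h0 : e 0 - d ∈ NN L R)
    (hd : ∀ n r, n + r + 1 = R → AltRing.G L r ((AltRing.V g)^[n] d)) :
    ∀ n r, n + r = R → e n - (AltRing.V g)^[n] d ∈ NN L r := by
  intro n
  induction n using Nat.strong_induction_on with
  | _ n ih =>
    intro r hr
    match n, ih, hr with
    | 0, ih, hr =>
      have : R = r := by omega
      subst this
      exact h0
    | 1, ih, hr =>
      have h3 := ih 0 (by omega) (r + 1) (by omega)
      have h4 := NN.V h3 hg
      rw [V_sub, ← h1] at h4
      exact h4
    | n + 2, ih, hr =>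
      have h3 := ih (n + 1) (by omega) (r + 1) (by omega)
      have h4 := NN.V h3 hg
      have h5 := ih n (by omega) (r + 2) (by omega)
      have h6 : AltRing.G L (r + 1) (e n) := by
        have h7 : AltRing.G L (r + 1) (e n - (AltRing.V g)^[n] d) := (NN.G h5).pred
        have h8 := hd n (r + 1) (by omega)
        have h9 := h7.add h8
        rwa [sub_add_cancel] at h9
      have h7 := sub_mem h4 (NN.mk hg h6)
      rw [V_sub] at h7
      rw [h2, Function.iterate_succ_apply']
      have : AltRing.V g (e (n + 1)) - N g (e n) - AltRing.V g ((AltRing.V g)^[n + 1] d) =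
        AltRing.V g (e (n + 1)) - AltRing.V g ((AltRing.V g)^[n + 1] d) - N g (e n) := by abel
      rw [this]
      exact h7

theorem V_iter {g h : A} (hg : g ∈ L) (hh : h ∈ L) (x : A) (i : ℕ)
    (hx : ∀ i' < i, Kill L ((V g)^[i'] x)) : V h ((V g)^[i] x) = (V g)^[i] (V h x) := by
  induction i with
  | zero => rfl
  | succ i ih =>
    rw [Function.iterate_succ_apply', Function.iterate_succ_apply',
      (hx i (by omega)).V_V hh hg, ih (fun i' hi' => hx i' (by omega))]

/-- iterated `V`'s -/
def VI (a b c : A) (i j k : ℕ) (x : A) : A := (V a)^[i] ((V b)^[j] ((V c)^[k] x))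

theorem G.V1_closure {s : Set A} {n : ℕ} {x : A} (h : ∀ g ∈ s, G L n (AltRing.V g x)) {g : A}
    (hg : g ∈ AddSubgroup.closure s) : G L n (AltRing.V g x) := by
  induction hg using AddSubgroup.closure_induction with
  | mem y hy => exact h y hy
  | zero => rw [V_zero1]; exact G.zero n
  | add y z _ _ h1 h2 => rw [V_add1]; exact h1.add h2
  | neg y _ h1 => rw [V_neg1]; exact h1.neg

theorem VI_G (a b c : A) (s : ℕ) : ∀ i j k n, i + j + k + n = s →
    G (AddSubgroup.closure {a, b, c}) n (VI a b c i j k (as a b c)) := by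
  have ha : a ∈ AddSubgroup.closure ({a, b, c} : Set A) :=
    AddSubgroup.subset_closure (by simp)
  have hb : b ∈ AddSubgroup.closure ({a, b, c} : Set A) :=
    AddSubgroup.subset_closure (by simp)
  have hc : c ∈ AddSubgroup.closure ({a, b, c} : Set A) :=
    AddSubgroup.subset_closure (by simp)
  set L := AddSubgroup.closure ({a, b, c} : Set A) with hL
  induction s with
  | zero =>
    intro i j k n h
    obtain rfl : i = 0 := by omega
    obtain rfl : j = 0 := by omega
    obtain rfl : k = 0 := by omega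
    obtain rfl : n = 0 := by omega
    exact Z_kill a b c 0 0 0
  | succ s ih =>
    have c1 : ∀ k r, k + r = s + 1 →
        Z a b c 0 0 k - (V c)^[k] (as a b c) ∈ NN L r := by
      apply NN.step hc (fun k => Z a b c 0 0 k) (as a b c) (s + 1) (Z_c1 a b c 0 0)
        (fun n => Z_c2 a b c 0 0 n)
      · show Z a b c 0 0 0 - as a b c ∈ _
        have : Z a b c 0 0 0 = as a b c := rfl
        rw [this, sub_self]
        exact zero_mem _
      · intro n r h
        exact ih 0 0 n r (by omega)
    have c2 : ∀ k j r, j + k + r = s + 1 →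
        Z a b c 0 j k - (V b)^[j] ((V c)^[k] (as a b c)) ∈ NN L r := by
      intro k j r h
      refine NN.step hb (fun j => Z a b c 0 j k) ((V c)^[k] (as a b c)) (s + 1 - k)
        (Z_b1 a b c 0 k) (fun n => Z_b2 a b c 0 n k) (c1 k _ (by omega)) ?_ j r (by omega)
      intro n r h
      exact ih 0 n k r (by omega)
    have c3 : ∀ k j i r, i + j + k + r = s + 1 →
        Z a b c i j k - VI a b c i j k (as a b c) ∈ NN L r := by
      intro k j i r h
      refine NN.step ha (fun i => Z a b c i j k) ((V b)^[j] ((V c)^[k] (as a b c)))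
        (s + 1 - k - j)
        (Z_a1 a b c j k) (fun n => Z_a2 a b c n j k) (c2 k j _ (by omega)) ?_ i r (by omega)
      intro n r h
      exact ih n j k r (by omega)
    intro i j k n
    induction n generalizing i j k with
    | zero =>
      intro h
      have h1 := NN.G (c3 k j i 0 (by omega))
      have h2 : G L 0 (Z a b c i j k) := Z_kill a b c i j k
      have h3 := h2.sub h1
      rwa [sub_sub_cancel] at h3
    | succ n ihn =>
      intro h
      have kl : ∀ i' j' k', i' + j' + k' ≤ s → Kill L (VI a b c i' j' k' (as a b c)) :=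
        fun i' j' k' h' => (ih i' j' k' (s - i' - j' - k') (by omega)).kill
      refine ⟨kl i j k (by omega), fun g hg => ?_⟩
      apply G.V1_closure (s := {a, b, c}) _ hg
      intro g hg
      simp only [Set.mem_insert_iff, Set.mem_singleton_iff] at hg
      rcases hg with hg | hg | hg
      · have := ihn (i + 1) j k (by omega)
        rw [VI, Function.iterate_succ_apply'] at this
        rw [hg]
        exact this
      · have := ihn i (j + 1) k (by omega)
        rw [VI, Function.iterate_succ_apply', ← V_iter ha hb _ _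
          (fun i' hi' => kl i' j k (by omega))] at this
        rw [hg]
        exact this
      · have := ihn i j (k + 1) (by omega)
        rw [VI, Function.iterate_succ_apply', ← V_iter hb hc _ _
          (fun j' hj' => kl 0 j' k (by omega)), ← V_iter ha hc _ _
          (fun i' hi' => kl i' j k (by omega))] at this
        rw [hg]
        exact this

end

/-- The associator lies in `GI`. -/
theorem u_mem_GI (a b c : A) : as a b c ∈ GI (AddSubgroup.closure {a, b, c}) :=
  fun n => VI_G a b c n 0 0 0 n (by omega)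

end Pool.Agent.AltRing
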